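import Pool.Graph.R_seed8.Helper523.LL.Pompeiu

/-!
# The Cauchy-Riemann operator and a smooth step
-/

set_option autoImplicit false

open MeasureTheory Set Filter Topology Metric Complex

open Pool.Agent.Helper523.LL (dbar)

namespace Pool.Agent.Helper72.CO

theorem dbar_congr {f g : ℂ → ℂ} {z : ℂ} (h : f =ᶠ[𝓝 z] g) : dbar f z = dbar g z := by
  unfold dbar
  rw [h.fderiv_eq]

theorem dbar_mul {f g : ℂ → ℂ} {z : ℂ} (hf : DifferentiableAt ℝ f z) (hg : DifferentiableAt ℝ g z) :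
    dbar (fun z => f z * g z) z = dbar f z * g z + f z * dbar g z := by
  unfold dbar
  rw [fderiv_fun_mul hf hg]
  simp only [_root_.add_apply, _root_.smul_apply, smul_eq_mul]
  ring

theorem dbar_sub {f g : ℂ → ℂ} {z : ℂ} (hf : DifferentiableAt ℝ f z) (hg : DifferentiableAt ℝ g z) :
    dbar (fun z => f z - g z) z = dbar f z - dbar g z := by
  unfold dbar
  rw [fderiv_fun_sub hf hg]
  simp only [_root_.sub_apply]
  ring

theorem dbar_holo {f : ℂ → ℂ} {z : ℂ} (hf : DifferentiableAt ℂ f z) : dbar f z = 0 := by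
  unfold dbar
  rw [hf.fderiv_restrictScalars ℝ]
  have h : ∀ v : ℂ, (fderiv ℂ f z) v = v * (fderiv ℂ f z) 1 := by
    intro v
    simp
  simp only [ContinuousLinearMap.coe_restrictScalars']
  rw [h Complex.I]
  linear_combination (1 / 2 : ℂ) * fderiv ℂ f z 1 * Complex.I_mul_I

theorem dbar_conj (z : ℂ) : dbar (fun z => starRingEnd ℂ z) z = 1 := by
  have h : HasFDerivAt (fun z : ℂ => starRingEnd ℂ z) (Complex.conjCLE : ℂ →L[ℝ] ℂ) z :=
    Complex.conjCLE.hasFDerivAt
  unfold dbar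
  rw [h.fderiv]
  simp only [ContinuousLinearEquiv.coe_coe, Complex.conjCLE_apply, map_one, Complex.conj_I]
  linear_combination (-(1 / 2) : ℂ) * Complex.I_mul_I

theorem dbar_comp_real {P : ℂ → ℝ} {φ : ℝ → ℝ} {z : ℂ} (hP : DifferentiableAt ℝ P z)
    (hφ : DifferentiableAt ℝ φ (P z)) :
    dbar (fun z => ((φ (P z) : ℝ) : ℂ)) z = ((deriv φ (P z) : ℝ) : ℂ) * dbar (fun z => (P z : ℂ)) z := by
  have h1 : HasFDerivAt (fun z => (P z : ℂ)) (Complex.ofRealCLM.comp (fderiv ℝ P z)) z :=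
    Complex.ofRealCLM.hasFDerivAt.comp z hP.hasFDerivAt
  have h2 : HasFDerivAt (fun z => ((φ (P z) : ℝ) : ℂ))
      (Complex.ofRealCLM.comp (deriv φ (P z) • fderiv ℝ P z)) z :=
    Complex.ofRealCLM.hasFDerivAt.comp z (hφ.hasDerivAt.comp_hasFDerivAt z hP.hasFDerivAt)
  unfold dbar
  rw [h1.fderiv, h2.fderiv]
  simp only [ContinuousLinearMap.comp_apply, _root_.smul_apply, smul_eq_mul,
    Complex.ofRealCLM_apply, Complex.ofReal_mul]
  ring

theorem dbar_cont {f : ℂ → ℂ} (hf : ContDiff ℝ 1 f) : Continuous (dbar f) := by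
  have hc : Continuous (fderiv ℝ f) := hf.continuous_fderiv (by norm_num)
  unfold dbar
  fun_prop

theorem dbar_zero_of {f : ℂ → ℂ} {z : ℂ} (h : ∀ᶠ w in 𝓝 z, f w = 0) : dbar f z = 0 := by
  rw [dbar_congr (g := fun _ => 0) h]
  exact dbar_holo (differentiableAt_const _)

/-! ### The smooth step -/

theorem step_deriv_zero {t : ℝ} (ht : t ≤ 0 ∨ 1 ≤ t) : deriv Real.smoothTransition t = 0 := by
  rcases ht with ht | ht
  · apply IsLocalMin.deriv_eq_zero
    refine Eventually.of_forall fun x => ?_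
    rw [Real.smoothTransition.zero_of_nonpos ht]
    exact Real.smoothTransition.nonneg x
  · apply IsLocalMax.deriv_eq_zero
    refine Eventually.of_forall fun x => ?_
    rw [Real.smoothTransition.one_of_one_le ht]
    exact Real.smoothTransition.le_one x

theorem step_deriv_bdd : ∃ M : ℝ, 0 ≤ M ∧ ∀ t, |deriv Real.smoothTransition t| ≤ M := by
  have hc : Continuous (deriv Real.smoothTransition) :=
    (Real.smoothTransition.contDiff (n := 1)).continuous_deriv (by norm_num)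
  obtain ⟨M, hM⟩ := (isCompact_Icc (a := (0 : ℝ)) (b := 1)).exists_bound_of_continuousOn
    hc.continuousOn
  have hM0 : 0 ≤ M := (norm_nonneg _).trans (hM 0 ⟨le_refl _, zero_le_one⟩)
  refine ⟨M, hM0, fun t => ?_⟩
  by_cases ht : t ∈ Icc (0 : ℝ) 1
  · exact hM t ht
  · rw [step_deriv_zero, abs_zero]
    · exact hM0
    · by_contra h
      push Not at h
      exact ht ⟨h.1.le, h.2.le⟩

end Pool.Agent.Helper72.CO
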