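import Pool.Agent.Helper72.CO.CT
import Pool.Agent.Helper72.CO.DB

/-!
# Holomorphic continuation of the Cauchy transform across the boundary
-/

set_option autoImplicit false

open MeasureTheory Set Filter Topology Metric Complex

open Pool.Agent.Helper523.LL (dbar)

namespace Pool.Agent.Helper72.CO

/-- Pompeiu's formula for a function which vanishes where `Q` does, cut off along `Q > 0`. -/
theorem cut {Q : ℂ → ℝ} (hQ : ContDiff ℝ 1 Q) {k : ℂ → ℂ} (hk : ContDiff ℝ 1 k)
    (hc : HasCompactSupport k) {C : ℝ} (hkQ : ∀ z, ‖k z‖ ≤ C * |Q z|) (z : ℂ) :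
    ∫ ζ, {ζ | 0 < Q ζ}.indicator (dbar k) ζ * (ζ - z)⁻¹ =
      -Real.pi * {ζ | 0 < Q ζ}.indicator k z := by
  obtain ⟨M, hM0, hM⟩ := step_deriv_bdd
  have hη : ContDiff ℝ 1 Real.smoothTransition := Real.smoothTransition.contDiff
  set g : ℕ → ℂ → ℂ := fun n ζ => ((Real.smoothTransition (n * Q ζ) : ℝ) : ℂ) with hg
  have hg1 : ∀ n, ContDiff ℝ 1 (g n) := fun n =>
    Complex.ofRealCLM.contDiff.comp (hη.comp (contDiff_const.mul hQ))
  have hkg : ∀ n, ContDiff ℝ 1 (fun ζ => k ζ * g n ζ) := fun n => hk.mul (hg1 n)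
  have hcg : ∀ n, HasCompactSupport (fun ζ => k ζ * g n ζ) := fun n => hc.mul_right
  have hpo : ∀ n, ∫ ζ, dbar (fun ζ => k ζ * g n ζ) ζ * (ζ - z)⁻¹ = -Real.pi * (k z * g n z) :=
    fun n => Pool.Agent.Helper523.LL.pompeiu (hkg n) (hcg n) z
  have hcQ : Continuous Q := hQ.continuous
  have hdk : Differentiable ℝ k := hk.differentiable (by norm_num)
  have hdQ : Differentiable ℝ Q := hQ.differentiable (by norm_num)
  have hdη : Differentiable ℝ Real.smoothTransition := hη.differentiable (by norm_num)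
  set DQ : ℂ → ℂ := dbar fun ζ => (Q ζ : ℂ) with hDQ
  have hcDQ : Continuous DQ := dbar_cont (Complex.ofRealCLM.contDiff.comp hQ)
  have hcdk : Continuous (dbar k) := dbar_cont hk
  -- the derivative of the cut-off
  have hdg : ∀ n ζ, dbar (g n) ζ =
      ((deriv Real.smoothTransition (n * Q ζ) : ℝ) : ℂ) * n * DQ ζ := by
    intro n ζ
    have h1 := dbar_comp_real (P := fun ζ => n * Q ζ) (φ := Real.smoothTransition) (z := ζ)
      ((hdQ ζ).const_mul _) (hdη _)
    have h2 : dbar (fun ζ => ((n * Q ζ : ℝ) : ℂ)) ζ = n * DQ ζ := by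
      have h3 := dbar_mul (f := fun _ => (n : ℂ)) (g := fun ζ => (Q ζ : ℂ)) (z := ζ)
        (differentiableAt_const _) ((Complex.ofRealCLM.differentiableAt).comp ζ (hdQ ζ))
      have h4 : dbar (fun _ : ℂ => (n : ℂ)) ζ = 0 := dbar_holo (differentiableAt_const _)
      rw [h4, zero_mul, zero_add] at h3
      rw [← h3]
      congr 1
      funext ζ
      push_cast
      ring
    rw [h2] at h1
    rw [mul_assoc]
    exact h1
  have hdm : ∀ n ζ, dbar (fun ζ => k ζ * g n ζ) ζ = dbar k ζ * g n ζ +
      k ζ * (((deriv Real.smoothTransition (n * Q ζ) : ℝ) : ℂ) * n * DQ ζ) := by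
    intro n ζ
    rw [dbar_mul (hdk ζ) ((hg1 n).differentiable (by norm_num) ζ), hdg]
  -- the support
  obtain ⟨R, hR, hR1⟩ : ∃ R : ℝ, 0 < R ∧ ∀ ζ ∈ tsupport k, ‖ζ‖ < R :=
    hc.isCompact.isBounded.exists_pos_norm_lt
  have hout : ∀ ζ, ζ ∉ ball (0 : ℂ) R → ζ ∉ tsupport k := by
    intro ζ h1 h2
    exact h1 (by simpa using hR1 ζ h2)
  have hk0 : ∀ ζ, ζ ∉ ball (0 : ℂ) R → k ζ = 0 := fun ζ h =>
    image_eq_zero_of_notMem_tsupport (hout ζ h)
  have hdk0 : ∀ ζ, ζ ∉ ball (0 : ℂ) R → dbar k ζ = 0 := fun ζ h =>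
    dbar_zero_of ((notMem_tsupport_iff_eventuallyEq.1 (hout ζ h)))
  -- bounds
  obtain ⟨A, hA⟩ := (isCompact_closedBall (0 : ℂ) R).exists_bound_of_continuousOn hcdk.continuousOn
  obtain ⟨B, hB⟩ := (isCompact_closedBall (0 : ℂ) R).exists_bound_of_continuousOn hcDQ.continuousOn
  have hA0 : 0 ≤ A := (norm_nonneg _).trans (hA 0 (mem_closedBall_self hR.le))
  have hB0 : 0 ≤ B := (norm_nonneg _).trans (hB 0 (mem_closedBall_self hR.le))
  have hn : ∀ (n : ℕ) ζ, |Q ζ| * (|deriv Real.smoothTransition (n * Q ζ)| * n) ≤ M := by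
    intro n ζ
    by_cases h : 0 < (n : ℝ) * Q ζ ∧ (n : ℝ) * Q ζ < 1
    · have h1 : |Q ζ| * n ≤ 1 := by
        have : |Q ζ| * n = |(n : ℝ) * Q ζ| := by
          rw [abs_mul, abs_of_nonneg (Nat.cast_nonneg n : (0 : ℝ) ≤ n), mul_comm]
        rw [this, abs_of_pos h.1]
        exact h.2.le
      calc |Q ζ| * (|deriv Real.smoothTransition (n * Q ζ)| * n)
          = |deriv Real.smoothTransition (n * Q ζ)| * (|Q ζ| * n) := by ring
        _ ≤ M * 1 := mul_le_mul (hM _) h1 (by positivity) hM0
        _ = M := mul_one _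
    · rw [step_deriv_zero]
      · simpa using hM0
      · by_contra h1
        push Not at h1
        exact h h1
  have hmain : Tendsto (fun n : ℕ => ∫ ζ, dbar (fun ζ => k ζ * g n ζ) ζ * (ζ - z)⁻¹) atTop
      (𝓝 (∫ ζ, {ζ | 0 < Q ζ}.indicator (dbar k) ζ * (ζ - z)⁻¹)) := by
    have hC0 : 0 ≤ |C| := abs_nonneg C
    refine tendsto_integral_of_dominated_convergence
      (fun ζ => (A + |C| * (M * B)) * ‖(ball (0 : ℂ) R).indicator (fun ζ => (z - ζ)⁻¹) ζ‖)
      (fun n => ?_) ?_ (fun n => Eventually.of_forall fun ζ => ?_)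
      (Eventually.of_forall fun ζ => ?_)
    · exact ((dbar_cont (hkg n)).aestronglyMeasurable).mul
        (by fun_prop : Measurable fun ζ : ℂ => (ζ - z)⁻¹).aestronglyMeasurable
    · exact (((integrable_indicator_iff isOpen_ball.measurableSet).2
        (Pool.Agent.H136R3.WA.integrable_inv_ball z R hR)).norm).const_mul _
    · by_cases h : ζ ∈ ball (0 : ℂ) R
      · rw [indicator_of_mem h, norm_mul]
        have h1 : ‖(ζ - z)⁻¹‖ = ‖(z - ζ)⁻¹‖ := by rw [norm_inv, norm_inv, norm_sub_rev]
        rw [h1]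
        refine mul_le_mul_of_nonneg_right ?_ (norm_nonneg _)
        rw [hdm]
        refine (norm_add_le _ _).trans (add_le_add ?_ ?_)
        · rw [norm_mul]
          have h2 : ‖g n ζ‖ ≤ 1 := by
            rw [hg]
            simp only
            rw [Complex.norm_real, Real.norm_of_nonneg (Real.smoothTransition.nonneg _)]
            exact Real.smoothTransition.le_one _
          calc ‖dbar k ζ‖ * ‖g n ζ‖ ≤ A * 1 :=
                mul_le_mul (hA ζ (ball_subset_closedBall h)) h2 (norm_nonneg _) hA0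
            _ = A := mul_one _
        · rw [norm_mul, norm_mul, norm_mul, Complex.norm_real, Real.norm_eq_abs,
            Complex.norm_natCast]
          have h3 : ‖k ζ‖ ≤ |C| * |Q ζ| := (hkQ ζ).trans
            (mul_le_mul_of_nonneg_right (le_abs_self C) (abs_nonneg _))
          calc ‖k ζ‖ * (|deriv Real.smoothTransition (n * Q ζ)| * n * ‖DQ ζ‖)
              ≤ (|C| * |Q ζ|) * (|deriv Real.smoothTransition (n * Q ζ)| * n * B) := by
                refine mul_le_mul h3 ?_ (by positivity) (by positivity)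
                exact mul_le_mul_of_nonneg_left (hB ζ (ball_subset_closedBall h)) (by positivity)
            _ = |C| * ((|Q ζ| * (|deriv Real.smoothTransition (n * Q ζ)| * n)) * B) := by ring
            _ ≤ |C| * (M * B) := by
                refine mul_le_mul_of_nonneg_left ?_ hC0
                exact mul_le_mul_of_nonneg_right (hn n ζ) hB0
      · rw [hdm, hk0 ζ h, hdk0 ζ h, indicator_of_notMem h]
        simp
    · apply tendsto_nhds_of_eventually_eq
      by_cases h : 0 < Q ζ
      · obtain ⟨N, hN⟩ := exists_nat_gt (1 / Q ζ)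
        filter_upwards [eventually_ge_atTop N] with n hn1
        have h1 : 1 ≤ (n : ℝ) * Q ζ := by
          have h2 : 1 / Q ζ < n := hN.trans_le (by exact_mod_cast hn1)
          rw [div_lt_iff₀ h] at h2
          exact h2.le
        rw [hdm, step_deriv_zero (Or.inr h1), indicator_of_mem (by exact h)]
        simp only [hg]
        rw [Real.smoothTransition.one_of_one_le h1]
        simp
      · refine Eventually.of_forall fun n => ?_
        have h1 : (n : ℝ) * Q ζ ≤ 0 :=
          mul_nonpos_of_nonneg_of_nonpos (Nat.cast_nonneg n) (not_lt.1 h)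
        rw [hdm, step_deriv_zero (Or.inl h1), indicator_of_notMem (by exact h)]
        simp only [hg]
        rw [Real.smoothTransition.zero_of_nonpos h1]
        simp
  have hlim : Tendsto (fun n : ℕ => -(Real.pi : ℂ) * (k z * g n z)) atTop
      (𝓝 (-Real.pi * {ζ | 0 < Q ζ}.indicator k z)) := by
    apply tendsto_nhds_of_eventually_eq
    by_cases h : 0 < Q z
    · obtain ⟨N, hN⟩ := exists_nat_gt (1 / Q z)
      filter_upwards [eventually_ge_atTop N] with n hn1
      have h1 : 1 ≤ (n : ℝ) * Q z := by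
        have h2 : 1 / Q z < n := hN.trans_le (by exact_mod_cast hn1)
        rw [div_lt_iff₀ h] at h2
        exact h2.le
      rw [indicator_of_mem (by exact h)]
      simp only [hg]
      rw [Real.smoothTransition.one_of_one_le h1]
      simp
    · refine Eventually.of_forall fun n => ?_
      have h1 : (n : ℝ) * Q z ≤ 0 :=
        mul_nonpos_of_nonneg_of_nonpos (Nat.cast_nonneg n) (not_lt.1 h)
      rw [indicator_of_notMem (by exact h)]
      simp only [hg]
      rw [Real.smoothTransition.zero_of_nonpos h1]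
      simp
  refine tendsto_nhds_unique hmain (hlim.congr fun n => (hpo n).symm)

/-- The Cauchy transform of `Ω`, corrected by `S - conj` inside `Ω`, is holomorphic across a
boundary point. -/
theorem an {Ω : Set ℂ} (hΩ : IsOpen Ω) (hb : Bornology.IsBounded Ω) {Q : ℂ → ℝ}
    (hQ : ContDiff ℝ 1 Q) {S : ℂ → ℂ} {ζ₀ : ℂ} {r : ℝ} (hr : 0 < r) {C : ℝ}
    (hS : DifferentiableOn ℂ S (ball ζ₀ r))
    (hQS : ∀ z ∈ ball ζ₀ r, ‖S z - starRingEnd ℂ z‖ ≤ C * |Q z|)
    (hside : ∀ z ∈ ball ζ₀ r, z ∈ Ω ↔ 0 < Q z) :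
    DifferentiableAt ℂ (fun z => cauchy Ω z + Ω.indicator (fun z => S z - starRingEnd ℂ z) z)
      ζ₀ := by
  let θ : ContDiffBump ζ₀ := ⟨r / 4, r / 2, by positivity, by linarith⟩
  have hC0 : ∀ z ∈ ball ζ₀ r, 0 ≤ C * |Q z| := fun z hz => (norm_nonneg _).trans (hQS z hz)
  set k : ℂ → ℂ := fun z => (θ z : ℂ) * (S z - starRingEnd ℂ z) with hk
  have hθ0 : ∀ z, z ∉ ball ζ₀ (r / 2) → θ z = 0 := by
    intro z hz
    by_contra h
    apply hz
    have h1 : z ∈ Function.support θ := h
    rw [θ.support_eq] at h1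
    exact h1
  have hts : tsupport k ⊆ closedBall ζ₀ (r / 2) := by
    refine closure_minimal ?_ isClosed_closedBall
    intro z hz
    by_contra h
    apply hz
    rw [hk]
    simp only
    rw [hθ0 z fun h' => h (ball_subset_closedBall h')]
    simp
  have hk1 : ContDiff ℝ 1 k := by
    rw [contDiff_iff_contDiffAt]
    intro z
    by_cases hz : z ∈ ball ζ₀ r
    · have h1 : ContDiffAt ℝ 1 (fun z => (θ z : ℂ)) z :=
        Complex.ofRealCLM.contDiff.contDiffAt.comp z θ.contDiff.contDiffAt
      have h2 : ContDiffAt ℝ 1 S z := by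
        have h3 : ContDiffAt ℂ 1 S z :=
          ((hS.analyticOnNhd isOpen_ball) z hz).contDiffAt
        exact h3.restrict_scalars ℝ
      have h3 : ContDiffAt ℝ 1 (fun z : ℂ => starRingEnd ℂ z) z :=
        Complex.conjCLE.contDiff.contDiffAt
      exact h1.mul (h2.sub h3)
    · have h1 : z ∈ (closedBall ζ₀ (r / 2))ᶜ := by
        intro h
        apply hz
        rw [mem_closedBall] at h
        rw [mem_ball]
        linarith
      have h2 : k =ᶠ[𝓝 z] fun _ => 0 := by
        filter_upwards [isClosed_closedBall.isOpen_compl.mem_nhds h1] with w hw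
        rw [hk]
        simp only
        rw [hθ0 w fun h => hw (ball_subset_closedBall h)]
        simp
      exact contDiffAt_const.congr_of_eventuallyEq h2
  have hkc : HasCompactSupport k := (isCompact_closedBall ζ₀ (r / 2)).of_isClosed_subset
    (isClosed_tsupport k) hts
  have hkball : ∀ z, z ∉ ball ζ₀ r → k z = 0 := by
    intro z hz
    rw [hk]
    simp only
    rw [hθ0 z fun h => hz (ball_subset_ball (by linarith) h)]
    simp
  have hkQ : ∀ z, ‖k z‖ ≤ |C| * |Q z| := by
    intro z
    by_cases hz : z ∈ ball ζ₀ r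
    · rw [hk]
      simp only
      rw [norm_mul, Complex.norm_real, Real.norm_of_nonneg θ.nonneg]
      calc θ z * ‖S z - starRingEnd ℂ z‖ ≤ 1 * (C * |Q z|) :=
            mul_le_mul θ.le_one (hQS z hz) (norm_nonneg _) zero_le_one
        _ = C * |Q z| := one_mul _
        _ ≤ |C| * |Q z| := mul_le_mul_of_nonneg_right (le_abs_self C) (abs_nonneg _)
    · rw [hkball z hz, norm_zero]
      positivity
  have hcut := cut hQ hk1 hkc hkQ
  -- pass from `{Q > 0}` to `Ω`
  have hdkball : ∀ z, z ∉ ball ζ₀ r → dbar k z = 0 := by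
    intro z hz
    apply dbar_zero_of
    have h1 : z ∉ tsupport k := by
      intro h
      have h2 := hts h
      apply hz
      rw [mem_closedBall] at h2
      rw [mem_ball]
      linarith
    exact notMem_tsupport_iff_eventuallyEq.1 h1
  have hind1 : {ζ | 0 < Q ζ}.indicator (dbar k) = Ω.indicator (dbar k) := by
    classical
    funext z
    by_cases hz : z ∈ ball ζ₀ r
    · by_cases h : z ∈ Ω
      · rw [indicator_of_mem h, indicator_of_mem (by exact (hside z hz).1 h)]
      · rw [indicator_of_notMem h, indicator_of_notMem (by exact fun h' => h ((hside z hz).2 h'))]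
    · rw [indicator_apply, indicator_apply, hdkball z hz]
      simp
  have hind2 : {ζ | 0 < Q ζ}.indicator k = Ω.indicator k := by
    classical
    funext z
    by_cases hz : z ∈ ball ζ₀ r
    · by_cases h : z ∈ Ω
      · rw [indicator_of_mem h, indicator_of_mem (by exact (hside z hz).1 h)]
      · rw [indicator_of_notMem h, indicator_of_notMem (by exact fun h' => h ((hside z hz).2 h'))]
    · rw [indicator_apply, indicator_apply, hkball z hz]
      simp
  rw [hind1, hind2] at hcut
  -- the density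
  set m : ℂ → ℂ := Ω.indicator fun z => 1 + dbar k z with hm
  obtain ⟨R, hR, hsub⟩ : ∃ R : ℝ, 0 < R ∧ Ω ⊆ ball 0 R := by
    obtain ⟨R, hR⟩ := hb.subset_ball 0
    exact ⟨max R 1, by positivity, hR.trans (ball_subset_ball (le_max_left _ _))⟩
  have hcdk : Continuous (dbar k) := dbar_cont hk1
  obtain ⟨A, hA⟩ := (isCompact_closedBall (0 : ℂ) R).exists_bound_of_continuousOn hcdk.continuousOn
  have hA0 : 0 ≤ A := (norm_nonneg _).trans (hA 0 (mem_closedBall_self hR.le))
  have hmeas : ∀ u : ℂ → ℂ, Continuous u → AEStronglyMeasurable (Ω.indicator u) volume :=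
    fun u hu => hu.aestronglyMeasurable.indicator hΩ.measurableSet
  have hzero : ∀ (u : ℂ → ℂ) ζ, ζ ∉ ball (0 : ℂ) R → Ω.indicator u ζ = 0 := fun u ζ h =>
    indicator_of_notMem (fun h' => h (hsub h')) _
  have hbd1 : ∀ ζ, ‖Ω.indicator (fun _ => (1 : ℂ)) ζ‖ ≤ 1 := by
    intro ζ
    by_cases h : ζ ∈ Ω
    · rw [indicator_of_mem h, norm_one]
    · rw [indicator_of_notMem h, norm_zero]
      exact zero_le_one
  have hbd2 : ∀ ζ, ‖Ω.indicator (dbar k) ζ‖ ≤ A := by
    intro ζ
    by_cases h : ζ ∈ Ω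
    · rw [indicator_of_mem h]
      exact hA ζ (ball_subset_closedBall (hsub h))
    · rw [indicator_of_notMem h, norm_zero]
      exact hA0
  have hsum : ∀ ζ, m ζ = Ω.indicator (fun _ => (1 : ℂ)) ζ + Ω.indicator (dbar k) ζ := by
    intro ζ
    by_cases h : ζ ∈ Ω
    · rw [hm, indicator_of_mem h, indicator_of_mem h, indicator_of_mem h]
    · rw [hm, indicator_of_notMem h, indicator_of_notMem h, indicator_of_notMem h, add_zero]
  have hmi : Integrable m := by
    have h1 := int_bdd (hmeas _ continuous_const) (hzero _) hbd1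
    have h2 := int_bdd (hmeas _ hcdk) (hzero _) hbd2
    exact (h1.add h2).congr (Eventually.of_forall fun ζ => (hsum ζ).symm)
  have hpi : (Real.pi : ℂ) ≠ 0 := by exact_mod_cast Real.pi_ne_zero
  have hCT : ∀ z, cauchy Ω z + Ω.indicator k z = (1 / Real.pi : ℂ) * CT m z := by
    intro z
    have h1 := int_inv (hmeas _ continuous_const) hR (hzero _) hbd1 z
    have h2 := int_inv (hmeas _ hcdk) hR (hzero _) hbd2 z
    have h3 : CT m z = CT (Ω.indicator fun _ => 1) z + CT (Ω.indicator (dbar k)) z := by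
      unfold CT
      rw [← integral_add h1 h2]
      congr 1
      funext ζ
      rw [hsum, add_mul]
    have h4 : CT (Ω.indicator (dbar k)) z = Real.pi * Ω.indicator k z := by
      have h5 := hcut z
      have h6 : CT (Ω.indicator (dbar k)) z =
          -∫ ζ, Ω.indicator (dbar k) ζ * (ζ - z)⁻¹ := by
        unfold CT
        rw [← integral_neg]
        congr 1
        funext ζ
        rw [← neg_sub ζ z, inv_neg]
        ring
      rw [h6, h5]
      ring
    rw [h3, h4, cauchy_eq hΩ.measurableSet]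
    field_simp
  have hm0 : ∀ᶠ ζ in 𝓝 ζ₀, m ζ = 0 := by
    filter_upwards [ball_mem_nhds ζ₀ (by positivity : (0 : ℝ) < r / 4)] with ζ hζ
    by_cases h : ζ ∈ Ω
    · rw [hm, indicator_of_mem h]
      have hζr : ζ ∈ ball ζ₀ r := ball_subset_ball (by linarith) hζ
      have h1 : k =ᶠ[𝓝 ζ] fun z => S z - starRingEnd ℂ z := by
        filter_upwards [isOpen_ball.mem_nhds hζ] with w hw
        rw [hk]
        simp only
        rw [θ.one_of_mem_closedBall (ball_subset_closedBall hw)]
        simp
      have h2 : DifferentiableAt ℂ S ζ := hS.differentiableAt (isOpen_ball.mem_nhds hζr)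
      have h3 : DifferentiableAt ℝ (fun z : ℂ => starRingEnd ℂ z) ζ :=
        Complex.conjCLE.differentiableAt
      rw [dbar_congr h1, dbar_sub (h2.restrictScalars ℝ) h3, dbar_holo h2, dbar_conj]
      ring
    · rw [hm, indicator_of_notMem h]
  have hfin : DifferentiableAt ℂ (fun z => cauchy Ω z + Ω.indicator k z) ζ₀ := by
    have h1 : (fun z => cauchy Ω z + Ω.indicator k z) =
        fun z => (1 / Real.pi : ℂ) * CT m z := funext hCT
    rw [h1]
    exact (CT_diffAt hmi hm0).const_mul _
  refine hfin.congr_of_eventuallyEq ?_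
  filter_upwards [ball_mem_nhds ζ₀ (by positivity : (0 : ℝ) < r / 4)] with ζ hζ
  by_cases h : ζ ∈ Ω
  · rw [indicator_of_mem h, indicator_of_mem h, hk]
    simp only
    rw [θ.one_of_mem_closedBall (ball_subset_closedBall hζ)]
    simp
  · rw [indicator_of_notMem h, indicator_of_notMem h]

end Pool.Agent.Helper72.CO
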