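import Pool.Agent.Helper72.CO.Defs
import Pool.Graph.R_seed8.H136R3.WA.Pompeiu

/-!
# Cauchy transforms of bounded functions with compact support
-/

set_option autoImplicit false

open MeasureTheory Set Filter Topology Metric Complex

namespace Pool.Agent.Helper72.CO

/-- Cauchy transform of a function. -/
noncomputable def CT (m : ℂ → ℂ) (z : ℂ) : ℂ := ∫ ζ, m ζ * (z - ζ)⁻¹

theorem meas_inv (z : ℂ) : Measurable fun ζ : ℂ => (z - ζ)⁻¹ := by fun_prop

/-- The Cauchy transform is holomorphic off the support. -/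
theorem CT_diff {m : ℂ → ℂ} (hm : Integrable m) {z₁ : ℂ} {ρ : ℝ} (hz : ∀ ζ ∈ ball z₁ ρ, m ζ = 0) :
    DifferentiableOn ℂ (CT m) (ball z₁ ρ) := by
  intro z hzb
  rw [mem_ball] at hzb
  set δ := (ρ - dist z z₁) / 2 with hδ
  have hδ0 : 0 < δ := by linarith
  have hfar : ∀ w ∈ ball z δ, ∀ ζ, m ζ ≠ 0 → δ ≤ ‖w - ζ‖ := by
    intro w hw ζ hζ
    by_contra hlt
    push Not at hlt
    apply hζ
    apply hz
    rw [mem_ball] at hw ⊢
    have h1 := dist_triangle ζ w z₁
    have h2 := dist_triangle w z z₁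
    rw [dist_comm ζ w, dist_eq_norm w ζ] at h1
    linarith
  have hF : ∀ w : ℂ, AEStronglyMeasurable (fun ζ => m ζ * (w - ζ)⁻¹) volume := fun w =>
    hm.aestronglyMeasurable.mul (meas_inv w).aestronglyMeasurable
  have hF' : AEStronglyMeasurable (fun ζ => m ζ * (-((z - ζ) ^ 2)⁻¹)) volume :=
    hm.aestronglyMeasurable.mul
      (by fun_prop : Measurable fun ζ : ℂ => -((z - ζ) ^ 2)⁻¹).aestronglyMeasurable
  have hb1 : ∀ w ∈ ball z δ, ∀ ζ, ‖m ζ * (w - ζ)⁻¹‖ ≤ ‖m ζ‖ * δ⁻¹ := by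
    intro w hw ζ
    rcases eq_or_ne (m ζ) 0 with h0 | h0
    · simp [h0]
    · rw [norm_mul, norm_inv]
      have := hfar w hw ζ h0
      gcongr
  have hb2 : ∀ w ∈ ball z δ, ∀ ζ, ‖m ζ * (-((w - ζ) ^ 2)⁻¹)‖ ≤ ‖m ζ‖ * (δ ^ 2)⁻¹ := by
    intro w hw ζ
    rcases eq_or_ne (m ζ) 0 with h0 | h0
    · simp [h0]
    · rw [norm_mul, norm_neg, norm_inv, norm_pow]
      have := hfar w hw ζ h0
      gcongr
  have key := hasDerivAt_integral_of_dominated_loc_of_deriv_le (μ := volume)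
    (F := fun w ζ => m ζ * (w - ζ)⁻¹) (x₀ := z) (s := ball z δ)
    (bound := fun ζ => ‖m ζ‖ * (δ ^ 2)⁻¹) (F' := fun w ζ => m ζ * (-((w - ζ) ^ 2)⁻¹))
    (ball_mem_nhds z hδ0) (Eventually.of_forall hF)
    ((hm.norm.mul_const δ⁻¹).mono' (hF z)
      (Eventually.of_forall (hb1 z (mem_ball_self hδ0)))) hF'
    (Eventually.of_forall fun ζ w hw => hb2 w hw ζ) (hm.norm.mul_const _)
    (Eventually.of_forall fun ζ w hw => by
      rcases eq_or_ne (m ζ) 0 with h0 | h0
      · simp only [h0, zero_mul]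
        exact hasDerivAt_const _ _
      · have hne : w - ζ ≠ 0 := by
          have := hfar w hw ζ h0
          intro h
          rw [h, norm_zero] at this
          linarith
        have h1 : HasDerivAt (fun w : ℂ => w - ζ) 1 w := (hasDerivAt_id w).sub_const ζ
        have h2 := (h1.inv hne).const_mul (m ζ)
        refine h2.congr_deriv ?_
        rw [neg_div, one_div])
  exact key.2.differentiableAt.differentiableWithinAt

theorem CT_diffAt {m : ℂ → ℂ} (hm : Integrable m) {z : ℂ} (hz : ∀ᶠ ζ in 𝓝 z, m ζ = 0) :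
    DifferentiableAt ℂ (CT m) z := by
  obtain ⟨ρ, hρ, h⟩ := Metric.eventually_nhds_iff_ball.1 hz
  exact (CT_diff hm h).differentiableAt (ball_mem_nhds z hρ)

theorem int_inv {m : ℂ → ℂ} {R C : ℝ} (hm : AEStronglyMeasurable m) (hR : 0 < R)
    (hs : ∀ ζ, ζ ∉ ball (0 : ℂ) R → m ζ = 0) (hb : ∀ ζ, ‖m ζ‖ ≤ C) (z : ℂ) :
    Integrable fun ζ => m ζ * (z - ζ)⁻¹ := by
  have h1 : Integrable ((ball (0 : ℂ) R).indicator fun ζ => C * ‖(z - ζ)⁻¹‖) :=
    (integrable_indicator_iff isOpen_ball.measurableSet).2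
      ((Pool.Agent.H136R3.WA.integrable_inv_ball z R hR).norm.const_mul C)
  refine h1.mono' (hm.mul (meas_inv z).aestronglyMeasurable) (Eventually.of_forall fun ζ => ?_)
  by_cases h : ζ ∈ ball (0 : ℂ) R
  · rw [indicator_of_mem h, norm_mul]
    exact mul_le_mul_of_nonneg_right (hb ζ) (norm_nonneg _)
  · rw [indicator_of_notMem h, hs ζ h]
    simp

theorem int_bdd {m : ℂ → ℂ} {R C : ℝ} (hm : AEStronglyMeasurable m) 
    (hs : ∀ ζ, ζ ∉ ball (0 : ℂ) R → m ζ = 0) (hb : ∀ ζ, ‖m ζ‖ ≤ C) : Integrable m := by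
  have h1 : Integrable ((ball (0 : ℂ) R).indicator fun _ => C) :=
    (integrable_indicator_iff isOpen_ball.measurableSet).2
      (integrableOn_const (measure_ball_lt_top.ne))
  refine h1.mono' hm (Eventually.of_forall fun ζ => ?_)
  by_cases h : ζ ∈ ball (0 : ℂ) R
  · rw [indicator_of_mem h]
    exact hb ζ
  · rw [indicator_of_notMem h, hs ζ h]
    simp

/-! ### The Cauchy transform of a domain -/

/-- The Cauchy transform `(1/π) ∫_Ω dA(ζ)/(z - ζ)`. -/
noncomputable def cauchy (Ω : Set ℂ) (z : ℂ) : ℂ := (1 / Real.pi : ℂ) * ∫ ζ in Ω, 1 / (z - ζ)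

theorem cauchy_eq {Ω : Set ℂ} (hΩ : MeasurableSet Ω) (z : ℂ) :
    cauchy Ω z = (1 / Real.pi : ℂ) * CT (Ω.indicator fun _ => 1) z := by
  unfold cauchy CT
  congr 1
  rw [← integral_indicator hΩ]
  congr 1
  funext ζ
  by_cases h : ζ ∈ Ω
  · rw [indicator_of_mem h, indicator_of_mem h, one_mul, one_div]
  · rw [indicator_of_notMem h, indicator_of_notMem h, zero_mul]

theorem ind_int {Ω : Set ℂ} (hΩ : MeasurableSet Ω) (hb : Bornology.IsBounded Ω) :
    Integrable (Ω.indicator fun _ => (1 : ℂ)) := by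
  rw [integrable_indicator_iff hΩ]
  exact integrableOn_const hb.measure_lt_top.ne

/-- The Cauchy transform is holomorphic outside of the closure. -/
theorem cauchy_diff_out {Ω : Set ℂ} (hΩ : MeasurableSet Ω) (hb : Bornology.IsBounded Ω) {z : ℂ}
    (hz : z ∉ closure Ω) : DifferentiableAt ℂ (cauchy Ω) z := by
  have h : cauchy Ω = fun z => (1 / Real.pi : ℂ) * CT (Ω.indicator fun _ => 1) z :=
    funext (cauchy_eq hΩ)
  rw [h]
  refine (CT_diffAt (ind_int hΩ hb) ?_).const_mul _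
  filter_upwards [isClosed_closure.isOpen_compl.mem_nhds hz] with ζ hζ
  exact indicator_of_notMem (fun h => hζ (subset_closure h)) _

/-- Inside, `conj z` minus the Cauchy transform is holomorphic. -/
theorem cauchy_diff_in {Ω : Set ℂ} (hΩ : IsOpen Ω) (hb : Bornology.IsBounded Ω) {z : ℂ}
    (hz : z ∈ Ω) : DifferentiableAt ℂ (fun z => starRingEnd ℂ z - cauchy Ω z) z := by
  obtain ⟨R, hR, hsub⟩ : ∃ R : ℝ, 0 < R ∧ Ω ⊆ ball 0 R := by
    obtain ⟨R, hR⟩ := hb.subset_ball 0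
    exact ⟨max R 1, by positivity, hR.trans (ball_subset_ball (le_max_left _ _))⟩
  set m : ℂ → ℂ := (ball (0 : ℂ) R \ Ω).indicator fun _ => 1 with hm
  have hmm : MeasurableSet (ball (0 : ℂ) R \ Ω) := isOpen_ball.measurableSet.diff hΩ.measurableSet
  have hmi : Integrable m := ind_int hmm (isBounded_ball.subset sdiff_subset)
  have h1 : ∀ w ∈ ball (0 : ℂ) R, starRingEnd ℂ w - cauchy Ω w = (1 / Real.pi : ℂ) * CT m w := by
    intro w hw
    have h2 := Pool.Agent.H136R3.WA.pompeiu (ζ := w) (R := R) (by simpa using hw)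
    have h3 : ∫ ζ in ball (0 : ℂ) R, (w - ζ)⁻¹ = (∫ ζ in Ω, (w - ζ)⁻¹) +
        ∫ ζ in ball (0 : ℂ) R \ Ω, (w - ζ)⁻¹ := by
      rw [← setIntegral_union disjoint_sdiff_right hmm, union_sdiff_cancel hsub]
      · exact (Pool.Agent.H136R3.WA.integrable_inv_ball w R hR).mono_set hsub
      · exact (Pool.Agent.H136R3.WA.integrable_inv_ball w R hR).mono_set sdiff_subset
    have h4 : CT m w = ∫ ζ in ball (0 : ℂ) R \ Ω, (w - ζ)⁻¹ := by
      rw [CT, ← integral_indicator hmm]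
      congr 1
      funext ζ
      by_cases h : ζ ∈ ball (0 : ℂ) R \ Ω
      · rw [hm, indicator_of_mem h, indicator_of_mem h, one_mul]
      · rw [hm, indicator_of_notMem h, indicator_of_notMem h, zero_mul]
    have h5 : cauchy Ω w = (1 / Real.pi : ℂ) * ∫ ζ in Ω, (w - ζ)⁻¹ := by
      simp only [cauchy, one_div]
    rw [h4, h5]
    have hpi : (Real.pi : ℂ) ≠ 0 := by exact_mod_cast Real.pi_ne_zero
    rw [h3] at h2
    generalize (∫ ζ in Ω, (w - ζ)⁻¹) = A at h2 ⊢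
    generalize (∫ ζ in ball (0 : ℂ) R \ Ω, (w - ζ)⁻¹) = B at h2 ⊢
    field_simp
    linear_combination -h2
  have h6 : DifferentiableAt ℂ (fun w => (1 / Real.pi : ℂ) * CT m w) z := by
    refine (CT_diffAt hmi ?_).const_mul _
    filter_upwards [hΩ.mem_nhds hz] with ζ hζ
    exact indicator_of_notMem (fun h => h.2 hζ) _
  refine h6.congr_of_eventuallyEq ?_
  filter_upwards [isOpen_ball.mem_nhds (hsub hz)] with w hw
  exact h1 w hw

/-- The Cauchy transform is bounded at infinity. -/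
theorem cauchy_bdd {Ω : Set ℂ} (hb : Bornology.IsBounded Ω) :
    ∃ C R : ℝ, ∀ z, R ≤ ‖z‖ → ‖cauchy Ω z‖ ≤ C := by
  obtain ⟨R, hR, hsub⟩ : ∃ R : ℝ, 0 < R ∧ Ω ⊆ ball 0 R := by
    obtain ⟨R, hR⟩ := hb.subset_ball 0
    exact ⟨max R 1, by positivity, hR.trans (ball_subset_ball (le_max_left _ _))⟩
  refine ⟨‖(1 / Real.pi : ℂ)‖ * (1 * volume.real Ω), R + 1, fun z hz => ?_⟩
  rw [cauchy, norm_mul]
  gcongr
  apply norm_setIntegral_le_of_norm_le_const hb.measure_lt_top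
  intro ζ hζ
  have h1 := hsub hζ
  rw [mem_ball, dist_zero_right] at h1
  have h2 : 1 ≤ ‖z - ζ‖ := by
    have := norm_sub_norm_le z ζ
    linarith
  rw [norm_div, norm_one]
  exact div_le_one_of_le₀ h2 (norm_nonneg _)

end Pool.Agent.Helper72.CO
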