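import Pool.Graph.R_seed8.Helper523.LL.Pompeiu

/-!
# The exterior Cauchy transform of a cubic oval: further interfaces
-/

set_option autoImplicit false

open MeasureTheory Set Filter Topology Metric Complex Polynomial

namespace Pool.Agent.Helper72.CO

open Pool.Agent.Helper523.LL (dbar)

/-- The integral lemma. -/
def S_INT : Prop :=
  ∀ (P : ℂ → ℝ), ContDiff ℝ 1 P → ∀ (Γ Ω V : Set ℂ), IsCompact Γ → Γ.Nonempty →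
    (∀ z ∈ Γ, P z = 0) → IsOpen Ω → Disjoint Ω Γ → Bornology.IsBounded Ω → closure Ω = Ω ∪ Γ →
    ∀ s : ℝ, (s = 1 ∨ s = -1) → (∀ ζ ∈ Γ, ∀ᶠ z in 𝓝 ζ, (P z = 0 → z ∈ Γ) ∧
        (0 < s * P z → z ∈ Ω) ∧ (s * P z < 0 → z ∉ closure Ω)) →
    IsOpen V → Γ ⊆ V → ∀ u : ℂ → ℂ, ContinuousOn u V →
    (∀ z ∈ Γ, u z * dbar (fun z => (P z : ℂ)) z = 1) →
    ∃ k : ℂ → ℂ, (∀ h, ContinuousOn h V → Integrable fun z => h z * k z) ∧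
      (∀ z, k z ≠ 0 → z ∈ V) ∧
      (∀ h, DifferentiableOn ℂ h (Ω ∪ V) → ∫ z, h z * k z = 0) ∧
      (∀ h, DifferentiableOn ℂ h ((closure Ω)ᶜ ∪ V) →
        (∃ C R : ℝ, ∀ z, R ≤ ‖z‖ → ‖h z‖ ≤ C / ‖z‖ ^ 2) → ∫ z, h z * k z = 0) ∧
      ∫ z, u z * k z ≠ 0

/-- Division by a polynomial. -/
def S_DIV : Prop :=
  ∀ (a : ℂ) (b c d : ℂ → ℂ) (W : Set ℂ), a ≠ 0 → IsOpen W → ContinuousOn b W → ContinuousOn c W →
    ContinuousOn d W → ∀ (H : ℂ → ℂ) (q : ℂ[X]), q ≠ 0 → DifferentiableOn ℂ H W →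
    (∀ z ∈ W, a * H z ^ 3 + b z * q.eval z * H z ^ 2 + c z * q.eval z ^ 2 * H z +
      d z * q.eval z ^ 3 = 0) →
    ∃ s : ℂ → ℂ, DifferentiableOn ℂ s W ∧ (∀ z ∈ W, H z = q.eval z * s z) ∧
      ∀ z ∈ W, a * s z ^ 3 + b z * s z ^ 2 + c z * s z + d z = 0

/-- Entire functions of polynomial growth are polynomials. -/
def S_ENT : Prop :=
  ∀ (H : ℂ → ℂ) (n : ℕ) (C R : ℝ), Differentiable ℂ H → (∀ z, R ≤ ‖z‖ → ‖H z‖ ≤ C * ‖z‖ ^ n) →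
    ∃ p : ℂ[X], ∀ z, H z = p.eval z

end Pool.Agent.Helper72.CO
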