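import Mathlib

/-!
# The exterior Cauchy transform of a cubic oval: further interfaces
-/

set_option autoImplicit false

open MeasureTheory Set Filter Topology Metric Complex Polynomial

namespace Pool.Agent.Helper72.CO

/-- The polynomial `P*(z, w) = a w³ + b(z) w² + c(z) w + d(z)`. -/
noncomputable def Ps (a : ℂ) (b c d : ℂ[X]) (z w : ℂ) : ℂ :=
  a * w ^ 3 + b.eval z * w ^ 2 + c.eval z * w + d.eval z

/-- The derivative of `P*` with respect to `w`. -/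
noncomputable def Pw (a : ℂ) (b c : ℂ[X]) (z w : ℂ) : ℂ :=
  3 * a * w ^ 2 + 2 * b.eval z * w + c.eval z

/-- The derivative of `P*` with respect to `z`. -/
noncomputable def Pz (b c d : ℂ[X]) (z w : ℂ) : ℂ :=
  (derivative b).eval z * w ^ 2 + (derivative c).eval z * w + (derivative d).eval z

/-- The cubic `P* = 0` is nonsingular, also at infinity. -/
structure Nons (a : ℂ) (b c d : ℂ[X]) : Prop where
  ha : a ≠ 0
  hb : b.natDegree ≤ 1
  hc : c.natDegree ≤ 2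
  hd : d.natDegree ≤ 3
  aff : ∀ z w, Ps a b c d z w = 0 → Pw a b c z w = 0 → Pz b c d z w ≠ 0
  inf : ∀ l : ℂ, a * l ^ 3 + b.coeff 1 * l ^ 2 + c.coeff 2 * l + d.coeff 3 = 0 →
    3 * a * l ^ 2 + 2 * b.coeff 1 * l + c.coeff 2 = 0 →
    b.coeff 0 * l ^ 2 + c.coeff 1 * l + d.coeff 2 ≠ 0

/-- Growth at infinity of the derivative along a holomorphic root. -/
def S_INF : Prop :=
  ∀ (a : ℂ) (b c d : ℂ[X]), Nons a b c d → ∀ (R : ℝ) (s : ℂ → ℂ),
    DifferentiableOn ℂ s {z | R < ‖z‖} → (∀ z, R < ‖z‖ → Ps a b c d z (s z) = 0) →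
    ∃ C R' : ℝ, 0 < C ∧ ∀ z, R' ≤ ‖z‖ → C * ‖z‖ ^ 2 ≤ ‖Pw a b c z (s z)‖

/-- Irreducibility over the rational functions. -/
def S_IRR : Prop :=
  ∀ (a : ℂ) (b c d : ℂ[X]), Nons a b c d → ∀ (K : Type) [Field K] [Algebra ℂ[X] K]
    [IsFractionRing ℂ[X] K], Irreducible (X ^ 3 + C (algebraMap ℂ[X] K (C a⁻¹ * b)) * X ^ 2 +
      C (algebraMap ℂ[X] K (C a⁻¹ * c)) * X + C (algebraMap ℂ[X] K (C a⁻¹ * d)) : K[X])

/-- Germs of analytic functions in an algebraically closed field over `ℂ(z)`. -/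
def S_GERM : Prop :=
  ∀ z₀ : ℂ, ∃ (L : Type) (_ : Field L) (_ : Algebra (FractionRing ℂ[X]) L) (_ : IsAlgClosed L)
    (j : (ℂ → ℂ) → L),
    (∀ f g, AnalyticAt ℂ f z₀ → AnalyticAt ℂ g z₀ → j (fun z => f z + g z) = j f + j g) ∧
    (∀ f g, AnalyticAt ℂ f z₀ → AnalyticAt ℂ g z₀ → j (fun z => f z * g z) = j f * j g) ∧
    (∀ f, AnalyticAt ℂ f z₀ → (j f = 0 ↔ ∀ᶠ z in 𝓝 z₀, f z = 0)) ∧
    ∀ p : ℂ[X], j (fun z => p.eval z) = algebraMap (FractionRing ℂ[X]) L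
      (algebraMap ℂ[X] (FractionRing ℂ[X]) p)

end Pool.Agent.Helper72.CO
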