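import Pool.Agent.Helper72.CO.Defs
import Pool.Agent.Helper72.CO.Defs2
import Pool.Agent.Helper72.CO.Defs3

/-!
# From the field theoretic alternative to holomorphic roots
-/

set_option autoImplicit false

open MeasureTheory Set Filter Topology Metric Complex Polynomial

namespace Pool.Agent.Helper72.CO

/-- Polynomials in `L`. -/
noncomputable def pm (L : Type) [Field L] [Algebra (FractionRing ℂ[X]) L] : ℂ[X] →+* L :=
  (algebraMap (FractionRing ℂ[X]) L).comp (algebraMap ℂ[X] (FractionRing ℂ[X]))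

/-- Germ data. -/
structure GD (z₀ : ℂ) (L : Type) [Field L] [Algebra (FractionRing ℂ[X]) L] (j : (ℂ → ℂ) → L) :
    Prop where
  add : ∀ f g, AnalyticAt ℂ f z₀ → AnalyticAt ℂ g z₀ → j (fun z => f z + g z) = j f + j g
  mul : ∀ f g, AnalyticAt ℂ f z₀ → AnalyticAt ℂ g z₀ → j (fun z => f z * g z) = j f * j g
  zero : ∀ f, AnalyticAt ℂ f z₀ → (j f = 0 ↔ ∀ᶠ z in 𝓝 z₀, f z = 0)
  pol : ∀ p : ℂ[X], j (fun z => p.eval z) = pm L p

theorem pm_inj (L : Type) [Field L] [Algebra (FractionRing ℂ[X]) L] :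
    Function.Injective (pm L) :=
  (algebraMap (FractionRing ℂ[X]) L).injective.comp (IsFractionRing.injective _ _)

theorem pm_ne {L : Type} [Field L] [Algebra (FractionRing ℂ[X]) L] {p : ℂ[X]} (hp : p ≠ 0) :
    pm L p ≠ 0 := by
  rw [Ne, map_eq_zero_iff _ (pm_inj L)]
  exact hp

section
variable {z₀ : ℂ} {L : Type} [Field L] [Algebra (FractionRing ℂ[X]) L] {j : (ℂ → ℂ) → L}

theorem GD.sub (D : GD z₀ L j) {f g : ℂ → ℂ} (hf : AnalyticAt ℂ f z₀) (hg : AnalyticAt ℂ g z₀) :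
    j (fun z => f z - g z) = j f - j g := by
  have h := D.add (fun z => f z - g z) g (hf.sub hg) hg
  simp only [sub_add_cancel] at h
  rw [eq_sub_iff_add_eq]
  exact h.symm

theorem GD.congr (D : GD z₀ L j) {f g : ℂ → ℂ} (hf : AnalyticAt ℂ f z₀) (hg : AnalyticAt ℂ g z₀) :
    j f = j g ↔ f =ᶠ[𝓝 z₀] g := by
  have h1 := D.sub hf hg
  have h2 := D.zero _ (hf.sub hg)
  rw [← sub_eq_zero, ← h1]
  refine h2.trans ⟨fun h => h.mono fun z hz => sub_eq_zero.1 hz, fun h => h.mono fun z hz => ?_⟩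
  exact sub_eq_zero.2 hz

theorem GD.one (D : GD z₀ L j) : j (fun _ => 1) = 1 := by
  have h := D.pol 1
  simpa using h

theorem GD.pow (D : GD z₀ L j) {f : ℂ → ℂ} (hf : AnalyticAt ℂ f z₀) (n : ℕ) :
    j (fun z => f z ^ n) = j f ^ n := by
  induction n with
  | zero => simpa using D.one
  | succ n ih =>
    have h := D.mul (fun z => f z ^ n) f (hf.pow n) hf
    rw [ih] at h
    simpa [pow_succ] using h

theorem pol_an (p : ℂ[X]) (z : ℂ) : AnalyticAt ℂ (fun z => p.eval z) z :=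
  p.differentiable.analyticAt z

theorem ev_mono (n : ℕ) (p : ℂ[X]) (z w : ℂ) : (monomial n p : ℂ[X][X]).evalEval z w =
    p.eval z * w ^ n := by
  simp [evalEval, eval_monomial]

theorem ev_an {f : ℂ → ℂ} {z : ℂ} (hf : AnalyticAt ℂ f z) (A : ℂ[X][X]) :
    AnalyticAt ℂ (fun z => A.evalEval z (f z)) z := by
  induction A using Polynomial.induction_on' with
  | add p q hp hq =>
    simp only [evalEval_add]
    exact hp.add hq
  | monomial n p =>
    simp only [ev_mono]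
    exact (pol_an p z).mul (hf.pow n)

theorem ev_diff {f : ℂ → ℂ} {W : Set ℂ} (hf : DifferentiableOn ℂ f W) (A : ℂ[X][X]) :
    DifferentiableOn ℂ (fun z => A.evalEval z (f z)) W := by
  induction A using Polynomial.induction_on' with
  | add p q hp hq =>
    simp only [evalEval_add]
    exact hp.add hq
  | monomial n p =>
    simp only [ev_mono]
    exact p.differentiable.differentiableOn.mul (hf.pow n)

theorem GD.ev (D : GD z₀ L j) {f : ℂ → ℂ} (hf : AnalyticAt ℂ f z₀) (A : ℂ[X][X]) :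
    j (fun z => A.evalEval z (f z)) = A.eval₂ (pm L) (j f) := by
  induction A using Polynomial.induction_on' with
  | add p q hp hq =>
    simp only [evalEval_add]
    rw [D.add _ _ (ev_an hf p) (ev_an hf q), hp, hq, eval₂_add]
  | monomial n p =>
    simp only [ev_mono]
    have h1 := D.mul (fun z => p.eval z) (fun z => f z ^ n) (pol_an p z₀) (hf.pow n)
    rw [h1, D.pol, D.pow hf, eval₂_monomial]

theorem rat (D : GD z₀ L j) {f : ℂ → ℂ} (hf : AnalyticAt ℂ f z₀)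
    (ha : IsAlgebraic (FractionRing ℂ[X]) (j f)) {x : L}
    (hx : x ∈ IntermediateField.adjoin (FractionRing ℂ[X]) {j f}) :
    ∃ (e : ℂ[X]) (A : ℂ[X][X]), e ≠ 0 ∧ pm L e * x = j (fun z => A.evalEval z (f z)) := by
  have h1 : x ∈ Algebra.adjoin (FractionRing ℂ[X]) {j f} := by
    rw [← IntermediateField.adjoin_simple_toSubalgebra_of_isAlgebraic ha]
    exact hx
  rw [Algebra.adjoin_singleton_eq_range_aeval] at h1
  obtain ⟨q, hq⟩ := h1
  obtain ⟨e, he, h⟩ := IsLocalization.integerNormalization_spec (nonZeroDivisors ℂ[X]) q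
  refine ⟨e, IsLocalization.integerNormalization (nonZeroDivisors ℂ[X]) q,
    nonZeroDivisors.ne_zero he, ?_⟩
  rw [D.ev hf]
  have h2 : (IsLocalization.integerNormalization (nonZeroDivisors ℂ[X]) q).eval₂ (pm L) (j f) =
      aeval (j f) ((IsLocalization.integerNormalization (nonZeroDivisors ℂ[X]) q).map
        (algebraMap ℂ[X] (FractionRing ℂ[X]))) := by
    rw [aeval_def, eval₂_map]
    rfl
  rw [h2, h]
  rw [← algebraMap_smul (FractionRing ℂ[X]) e q, map_smul, Algebra.smul_def, ← hq]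
  rfl

theorem ident {V : Set ℂ} (hV : IsPreconnected V) (hVo : IsOpen V) {f g : ℂ → ℂ}
    (hf : DifferentiableOn ℂ f V) (hg : DifferentiableOn ℂ g V) {z : ℂ} (hz : z ∈ V)
    (h : f =ᶠ[𝓝 z] g) : ∀ w ∈ V, f w = g w :=
  (hf.analyticOnNhd hVo).eqOn_of_preconnected_of_eventuallyEq (hg.analyticOnNhd hVo) hV hz h

theorem lift (hDIV : S_DIV) (D : GD z₀ L j) {a : ℂ} {b c d : ℂ[X]} (ha : a ≠ 0) {W : Set ℂ}
    (hW : IsOpen W) (hWc : IsPreconnected W) (hz₀ : z₀ ∈ W) {f : ℂ → ℂ}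
    (hf : DifferentiableOn ℂ f W) (halg : IsAlgebraic (FractionRing ℂ[X]) (j f)) {T : L}
    (hT : T ∈ IntermediateField.adjoin (FractionRing ℂ[X]) {j f})
    (hroot : pm L (C a) * T ^ 3 + pm L b * T ^ 2 + pm L c * T + pm L d = 0) :
    ∃ s, DifferentiableOn ℂ s W ∧ (∀ z ∈ W, Ps a b c d z (s z) = 0) ∧ j s = T := by
  have hfa : AnalyticAt ℂ f z₀ := hf.analyticOnNhd hW z₀ hz₀
  obtain ⟨e, A, he, hx⟩ := rat D hfa halg hT
  set H : ℂ → ℂ := fun z => A.evalEval z (f z) with hH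
  have hHd : DifferentiableOn ℂ H W := ev_diff hf A
  have hHa : AnalyticAt ℂ H z₀ := hHd.analyticOnNhd hW z₀ hz₀
  set B : ℂ[X][X] := monomial 3 (C a) + monomial 2 (b * e) + monomial 1 (c * e ^ 2) +
    monomial 0 (d * e ^ 3) with hB
  have hBz : ∀ z w, B.evalEval z w = a * w ^ 3 + b.eval z * e.eval z * w ^ 2 +
      c.eval z * e.eval z ^ 2 * w + d.eval z * e.eval z ^ 3 := by
    intro z w
    rw [hB]
    simp only [evalEval_add, ev_mono, eval_C, eval_mul, eval_pow, pow_one, pow_zero, mul_one]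
  have h1 : j (fun z => B.evalEval z (H z)) = 0 := by
    rw [D.ev hHa, hB]
    simp only [eval₂_add, eval₂_monomial, map_mul, map_pow, pow_one, pow_zero, mul_one]
    rw [← hx]
    linear_combination pm L e ^ 3 * hroot
  have h2 : (fun z => B.evalEval z (H z)) =ᶠ[𝓝 z₀] fun _ => 0 :=
    (D.zero _ (ev_an hHa B)).1 h1
  have h3 := ident hWc hW (ev_diff hHd B) (differentiableOn_const 0) hz₀ h2
  obtain ⟨s, hs1, hs2, hs3⟩ := hDIV a (fun z => b.eval z) (fun z => c.eval z) (fun z => d.eval z) W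
    ha hW b.continuous.continuousOn c.continuous.continuousOn d.continuous.continuousOn H e he hHd
    (fun z hz => by
      rw [← h3 z hz, hBz])
  refine ⟨s, hs1, hs3, ?_⟩
  have hsa : AnalyticAt ℂ s z₀ := hs1.analyticOnNhd hW z₀ hz₀
  have h4 : j H = pm L e * j s := by
    have h5 : H =ᶠ[𝓝 z₀] fun z => e.eval z * s z := by
      filter_upwards [hW.mem_nhds hz₀] with z hz
      exact hs2 z hz
    have h6 := D.mul (fun z => e.eval z) s (pol_an e z₀) hsa
    have h7 : j H = j fun z => e.eval z * s z := (D.congr hHa ((pol_an e z₀).mul hsa)).2 h5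
    rw [h7, h6, D.pol]
  rw [← hx] at h4
  exact (mul_left_cancel₀ (pm_ne he) h4).symm

end

/-! ### Growth -/

theorem growth1 (p : ℂ[X]) : ∃ (C : ℝ) (n : ℕ), 0 ≤ C ∧ ∀ z : ℂ, 1 ≤ ‖z‖ →
    ‖p.eval z‖ ≤ C * ‖z‖ ^ n := by
  induction p using Polynomial.induction_on' with
  | add p q hp hq =>
    obtain ⟨C₁, n₁, h1, h2⟩ := hp
    obtain ⟨C₂, n₂, h3, h4⟩ := hq
    refine ⟨C₁ + C₂, max n₁ n₂, by positivity, fun z hz => ?_⟩
    rw [eval_add, add_mul]
    refine (norm_add_le _ _).trans (add_le_add ((h2 z hz).trans ?_) ((h4 z hz).trans ?_))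
    · gcongr
      exact le_max_left _ _
    · gcongr
      exact le_max_right _ _
  | monomial n a =>
    refine ⟨‖a‖, n, norm_nonneg _, fun z hz => ?_⟩
    rw [eval_monomial, norm_mul, norm_pow]

theorem growth2 (A : ℂ[X][X]) (B : ℝ) : ∃ (C : ℝ) (n : ℕ), 0 ≤ C ∧ ∀ z w : ℂ, 1 ≤ ‖z‖ → ‖w‖ ≤ B →
    ‖A.evalEval z w‖ ≤ C * ‖z‖ ^ n := by
  induction A using Polynomial.induction_on' with
  | add p q hp hq =>
    obtain ⟨C₁, n₁, h1, h2⟩ := hp
    obtain ⟨C₂, n₂, h3, h4⟩ := hq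
    refine ⟨C₁ + C₂, max n₁ n₂, by positivity, fun z w hz hw => ?_⟩
    rw [evalEval_add, add_mul]
    refine (norm_add_le _ _).trans (add_le_add ((h2 z w hz hw).trans ?_) ((h4 z w hz hw).trans ?_))
    · gcongr
      exact le_max_left _ _
    · gcongr
      exact le_max_right _ _
  | monomial n p =>
    obtain ⟨C, m, h1, h2⟩ := growth1 p
    refine ⟨C * |B| ^ n, m, by positivity, fun z w hz hw => ?_⟩
    rw [ev_mono, norm_mul, norm_pow]
    calc ‖p.eval z‖ * ‖w‖ ^ n ≤ (C * ‖z‖ ^ m) * |B| ^ n := by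
          refine mul_le_mul (h2 z hz) ?_ (by positivity) (by positivity)
          exact pow_le_pow_left₀ (norm_nonneg _) (hw.trans (le_abs_self B)) n
      _ = C * |B| ^ n * ‖z‖ ^ m := by ring

/-! ### The two fields meet in the rational functions -/

theorem meet (hENT : S_ENT) {V W₁ W₂ : Set ℂ} (h1 : IsOpen W₁) (h2 : IsOpen W₂)
    (hcov : W₁ ∪ W₂ = univ) (hint : W₁ ∩ W₂ ⊆ V) (hb2 : Bornology.IsBounded W₂) {F G : ℂ → ℂ}
    (hF : DifferentiableOn ℂ F W₁) (hG : DifferentiableOn ℂ G W₂)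
    (hFb : ∃ C R : ℝ, ∀ z, R ≤ ‖z‖ → ‖F z‖ ≤ C) (A₁ A₂ : ℂ[X][X])
    (heq : ∀ z ∈ V, A₁.evalEval z (F z) = A₂.evalEval z (G z)) :
    ∃ p : ℂ[X], ∀ z ∈ W₁, A₁.evalEval z (F z) = p.eval z := by
  classical
  set H : ℂ → ℂ := fun z => if z ∈ W₁ then A₁.evalEval z (F z) else A₂.evalEval z (G z) with hH
  have hH1 : ∀ z ∈ W₁, H z = A₁.evalEval z (F z) := fun z hz => if_pos hz
  have hH2 : ∀ z ∈ W₂, H z = A₂.evalEval z (G z) := by
    intro z hz
    by_cases h : z ∈ W₁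
    · rw [hH1 z h, heq z (hint ⟨h, hz⟩)]
    · exact if_neg h
  have hHd : Differentiable ℂ H := by
    intro z
    rcases (by rw [hcov]; trivial : z ∈ W₁ ∪ W₂) with hz | hz
    · refine ((ev_diff hF A₁).differentiableAt (h1.mem_nhds hz)).congr_of_eventuallyEq ?_
      filter_upwards [h1.mem_nhds hz] with w hw
      exact hH1 w hw
    · refine ((ev_diff hG A₂).differentiableAt (h2.mem_nhds hz)).congr_of_eventuallyEq ?_
      filter_upwards [h2.mem_nhds hz] with w hw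
      exact hH2 w hw
  obtain ⟨CF, R, hR⟩ := hFb
  obtain ⟨R₂, hR₂⟩ := hb2.subset_ball 0
  obtain ⟨C, n, hC, hC'⟩ := growth2 A₁ CF
  obtain ⟨p, hp⟩ := hENT H n C (max (max R R₂) 1) hHd (by
    intro z hz
    have h3 : R ≤ ‖z‖ := (le_max_left _ _).trans ((le_max_left _ _).trans hz)
    have h4 : R₂ ≤ ‖z‖ := (le_max_right _ _).trans ((le_max_left _ _).trans hz)
    have h5 : 1 ≤ ‖z‖ := (le_max_right _ _).trans hz
    have h6 : z ∉ W₂ := by
      intro h
      have := hR₂ h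
      rw [mem_ball, dist_zero_right] at this
      linarith
    have h7 : z ∈ W₁ := by
      rcases (by rw [hcov]; trivial : z ∈ W₁ ∪ W₂) with hz | hz
      · exact hz
      · exact absurd hz h6
    rw [hH1 z h7]
    exact hC' z _ h5 (hR z h3))
  exact ⟨p, fun z hz => by rw [← hH1 z hz, hp]⟩

theorem coef3 {L : Type} [Field L] {β γ δ A B E : L}
    (h : (X ^ 3 + C β * X ^ 2 + C γ * X + C δ : L[X]) = X ^ 3 - C A * X ^ 2 + C B * X - C E) :
    β = -A ∧ γ = B ∧ δ = -E := by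
  have hc2 := congrArg (fun q => coeff q 2) h
  have hc1 := congrArg (fun q => coeff q 1) h
  have hc0 := congrArg (fun q => coeff q 0) h
  simp [coeff_X, coeff_C, coeff_X_pow] at hc2 hc1 hc0
  exact ⟨hc2, hc1, hc0⟩

/-! ### The three cases -/

theorem cases_thm (hGERM : S_GERM) (hIRR : S_IRR) (hALG : S_ALG) (hENT : S_ENT) (hDIV : S_DIV)
    {a : ℂ} {b c d : ℂ[X]} (hN : Nons a b c d) {V W₁ W₂ : Set ℂ} (hV : IsOpen V)
    (hVc : IsPreconnected V) (hVne : V.Nonempty) (h1 : IsOpen W₁) (h1c : IsPreconnected W₁)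
    (h2 : IsOpen W₂) (h2c : IsPreconnected W₂) (hV1 : V ⊆ W₁) (hV2 : V ⊆ W₂)
    (hcov : W₁ ∪ W₂ = univ) (hint : W₁ ∩ W₂ ⊆ V) (hb2 : Bornology.IsBounded W₂) {F G S : ℂ → ℂ}
    (hF : DifferentiableOn ℂ F W₁) (hG : DifferentiableOn ℂ G W₂) (hS : DifferentiableOn ℂ S V)
    (hFG : ∀ z ∈ V, F z + G z = S z) (hFb : ∃ C R : ℝ, ∀ z, R ≤ ‖z‖ → ‖F z‖ ≤ C)
    {Q : ℂ[X][X]} (hQ : Q ≠ 0) (hQF : ∀ z ∈ V, Q.evalEval z (F z) = 0)
    (hSr : ∀ z ∈ V, Ps a b c d z (S z) = 0) :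
    (∃ s, DifferentiableOn ℂ s W₁ ∧ (∀ z ∈ W₁, Ps a b c d z (s z) = 0) ∧ ∀ z ∈ V, s z = S z) ∨
    (∃ s, DifferentiableOn ℂ s W₂ ∧ (∀ z ∈ W₂, Ps a b c d z (s z) = 0) ∧ ∀ z ∈ V, s z = S z) ∨
    (∃ s₂ s₃, DifferentiableOn ℂ s₂ W₂ ∧ (∀ z ∈ W₂, Ps a b c d z (s₂ z) = 0) ∧
      DifferentiableOn ℂ s₃ W₁ ∧ (∀ z ∈ W₁, Ps a b c d z (s₃ z) = 0) ∧
      ∀ z ∈ V, a * (S z + s₂ z + s₃ z) = -b.eval z ∧
        a * (S z * s₂ z + S z * s₃ z + s₂ z * s₃ z) = c.eval z ∧
        a * (S z * s₂ z * s₃ z) = -d.eval z) := by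
  obtain ⟨z₀, hz₀⟩ := hVne
  obtain ⟨L, iF, iA, iC, j, hadd, hmul, hzero, hpol⟩ := hGERM z₀
  have D : GD z₀ L j := ⟨hadd, hmul, hzero, hpol⟩
  have ha := hN.ha
  set K := FractionRing ℂ[X] with hK
  have : CharZero K := charZero_of_injective_algebraMap (R := ℂ[X]) (IsFractionRing.injective _ _)
  have hFa : AnalyticAt ℂ F z₀ := hF.analyticOnNhd h1 z₀ (hV1 hz₀)
  have hGa : AnalyticAt ℂ G z₀ := hG.analyticOnNhd h2 z₀ (hV2 hz₀)
  have hSa : AnalyticAt ℂ S z₀ := hS.analyticOnNhd hV z₀ hz₀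
  have hnb : ∀ {p : ℂ → Prop}, (∀ z ∈ V, p z) → ∀ᶠ z in 𝓝 z₀, p z := fun {p} h => by
    filter_upwards [hV.mem_nhds hz₀] with z hz
    exact h z hz
  have hFGj : j F + j G = j S := by
    rw [← D.add _ _ hFa hGa]
    exact (D.congr (hFa.add hGa) hSa).2 (hnb hFG)
  -- `F` is algebraic
  have hFalg : IsAlgebraic K (j F) := by
    refine ⟨Q.map (algebraMap ℂ[X] K), ?_, ?_⟩
    · rw [Ne, Polynomial.map_eq_zero_iff (IsFractionRing.injective _ _)]
      exact hQ
    · rw [aeval_def, eval₂_map]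
      have h3 := D.ev hFa Q
      have h4 : j (fun z => Q.evalEval z (F z)) = 0 := (D.zero _ (ev_an hFa Q)).2 (hnb hQF)
      rw [h4] at h3
      exact h3.symm
  -- the cubic
  have hSroot : pm L (C a) * j S ^ 3 + pm L b * j S ^ 2 + pm L c * j S + pm L d = 0 := by
    set B : ℂ[X][X] := monomial 3 (C a) + monomial 2 b + monomial 1 c + monomial 0 d with hB
    have h3 := D.ev hSa B
    have h4 : j (fun z => B.evalEval z (S z)) = 0 := by
      refine (D.zero _ (ev_an hSa B)).2 (hnb fun z hz => ?_)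
      rw [hB]
      simp only [evalEval_add, ev_mono, eval_C, pow_one, pow_zero, mul_one]
      exact hSr z hz
    rw [h4, hB] at h3
    simp only [eval₂_add, eval₂_monomial, pow_one, pow_zero, mul_one] at h3
    exact h3.symm
  have hCa : pm L (C a) ≠ 0 := pm_ne (by simpa using ha)
  have hCa' : pm L (C a⁻¹) * pm L (C a) = 1 := by
    rw [← map_mul, ← C_mul, inv_mul_cancel₀ ha, C_1, map_one]
  set p : K[X] := X ^ 3 + C (algebraMap ℂ[X] K (C a⁻¹ * b)) * X ^ 2 +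
      C (algebraMap ℂ[X] K (C a⁻¹ * c)) * X + C (algebraMap ℂ[X] K (C a⁻¹ * d)) with hp
  have hpirr : Irreducible p := hIRR a b c d hN K
  have hpdeg : p.natDegree = 3 := by
    rw [hp]
    compute_degree!
  have hpm : p.Monic := by
    rw [hp]
    monicity!
  have hpev : ∀ T : L, aeval T p = T ^ 3 + pm L (C a⁻¹ * b) * T ^ 2 + pm L (C a⁻¹ * c) * T +
      pm L (C a⁻¹ * d) := by
    intro T
    rw [hp]
    simp only [map_add, map_mul, map_pow, aeval_X, aeval_C]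
    rfl
  have hpS : aeval (j S) p = 0 := by
    rw [hpev]
    simp only [map_mul]
    linear_combination pm L (C a⁻¹) * hSroot - j S ^ 3 * hCa'
  have hproot : ∀ T : L, aeval T p = 0 →
      pm L (C a) * T ^ 3 + pm L b * T ^ 2 + pm L c * T + pm L d = 0 := by
    intro T hT
    rw [hpev] at hT
    simp only [map_mul] at hT
    linear_combination pm L (C a) * hT - (pm L b * T ^ 2 + pm L c * T + pm L d) * hCa'
  have hSalg : IsAlgebraic K (j S) := ⟨p, hpm.ne_zero, hpS⟩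
  have hGalg : IsAlgebraic K (j G) := by
    have h3 : j G = j S - j F := by rw [← hFGj]; ring
    rw [h3]
    exact hSalg.sub hFalg
  -- the intersection of the two fields
  have hmeet : ∀ x ∈ IntermediateField.adjoin K {j F}, x ∈ IntermediateField.adjoin K {j G} →
      ∃ k : K, algebraMap K L k = x := by
    intro x hx1 hx2
    obtain ⟨e₁, A₁, he₁, hA₁⟩ := rat D hFa hFalg hx1
    obtain ⟨e₂, A₂, he₂, hA₂⟩ := rat D hGa hGalg hx2
    have h3 : j (fun z => (C e₂ * A₁).evalEval z (F z)) =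
        j (fun z => (C e₁ * A₂).evalEval z (G z)) := by
      rw [D.ev hFa, D.ev hGa, eval₂_mul, eval₂_mul, eval₂_C, eval₂_C, ← D.ev hFa, ← D.ev hGa,
        ← hA₁, ← hA₂]
      ring
    have h4 := (D.congr (ev_an hFa _) (ev_an hGa _)).1 h3
    have h5 := ident hVc hV ((ev_diff hF (C e₂ * A₁)).mono hV1)
      ((ev_diff hG (C e₁ * A₂)).mono hV2) hz₀ h4
    obtain ⟨q, hq⟩ := meet hENT h1 h2 hcov hint hb2 hF hG hFb (C e₂ * A₁) (C e₁ * A₂) h5
    have h6 : j (fun z => (C e₂ * A₁).evalEval z (F z)) = pm L q := by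
      rw [← D.pol]
      exact (D.congr (ev_an hFa _) (pol_an q z₀)).2 (hnb fun z hz => hq z (hV1 hz))
    rw [D.ev hFa, eval₂_mul, eval₂_C, ← D.ev hFa, ← hA₁] at h6
    refine ⟨algebraMap ℂ[X] K q / (algebraMap ℂ[X] K e₂ * algebraMap ℂ[X] K e₁), ?_⟩
    rw [map_div₀, map_mul]
    have h7 : algebraMap K L (algebraMap ℂ[X] K e₂) ≠ 0 := pm_ne he₂
    have h8 : algebraMap K L (algebraMap ℂ[X] K e₁) ≠ 0 := pm_ne he₁
    rw [div_eq_iff (mul_ne_zero h7 h8)]
    have h9 : algebraMap K L (algebraMap ℂ[X] K q) = pm L q := rfl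
    have h10 : algebraMap K L (algebraMap ℂ[X] K e₂) = pm L e₂ := rfl
    have h11 : algebraMap K L (algebraMap ℂ[X] K e₁) = pm L e₁ := rfl
    rw [h9, h10, h11, ← h6]
    ring
  have hagree : ∀ {W : Set ℂ} {s : ℂ → ℂ}, IsOpen W → V ⊆ W → DifferentiableOn ℂ s W → j s = j S →
      ∀ z ∈ V, s z = S z := by
    intro W s hW hVW hs hj
    have hsa : AnalyticAt ℂ s z₀ := hs.analyticOnNhd hW z₀ (hVW hz₀)
    exact ident hVc hV (hs.mono hVW) hS hz₀ ((D.congr hsa hSa).1 hj)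
  rcases hALG K L (j F) (j G) (j S) hFGj hFalg p hpirr hpm hpdeg hpS hmeet with h | h | h
  · left
    obtain ⟨s, hs1, hs2, hs3⟩ := lift hDIV D ha h1 h1c (hV1 hz₀) hF hFalg h hSroot
    exact ⟨s, hs1, hs2, hagree h1 hV1 hs1 hs3⟩
  · right
    left
    obtain ⟨s, hs1, hs2, hs3⟩ := lift hDIV D ha h2 h2c (hV2 hz₀) hG hGalg h hSroot
    exact ⟨s, hs1, hs2, hagree h2 hV2 hs1 hs3⟩
  · right
    right
    obtain ⟨S₂, S₃, hS₂, hS₃, hfac⟩ := h
    have hr : ∀ T, (X - C (j S)) * (X - C S₂) * (X - C S₃) = p.map (algebraMap K L) →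
        (T - j S) * (T - S₂) * (T - S₃) = aeval T p := by
      intro T h
      rw [aeval_def, ← eval_map, ← h]
      simp
    have hr' := fun T => hr T hfac.symm
    have hS₂r : aeval S₂ p = 0 := by rw [← hr' S₂]; ring
    have hS₃r : aeval S₃ p = 0 := by rw [← hr' S₃]; ring
    obtain ⟨s₂, hs1, hs2, hs3⟩ := lift hDIV D ha h2 h2c (hV2 hz₀) hG hGalg hS₂ (hproot _ hS₂r)
    obtain ⟨s₃, ht1, ht2, ht3⟩ := lift hDIV D ha h1 h1c (hV1 hz₀) hF hFalg hS₃ (hproot _ hS₃r)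
    refine ⟨s₂, s₃, hs1, hs2, ht1, ht2, ?_⟩
    have hs₂a : AnalyticAt ℂ s₂ z₀ := hs1.analyticOnNhd h2 z₀ (hV2 hz₀)
    have hs₃a : AnalyticAt ℂ s₃ z₀ := ht1.analyticOnNhd h1 z₀ (hV1 hz₀)
    have hs₂d := hs1.mono hV2
    have hs₃d := ht1.mono hV1
    -- coefficients
    have hpmap : p.map (algebraMap K L) = X ^ 3 + C (pm L (C a⁻¹ * b)) * X ^ 2 +
        C (pm L (C a⁻¹ * c)) * X + C (pm L (C a⁻¹ * d)) := by
      rw [hp]
      simp only [Polynomial.map_add, Polynomial.map_mul, Polynomial.map_pow, map_X, map_C]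
      rfl
    rw [hpmap] at hfac
    have hexp : (X - C (j S)) * (X - C S₂) * (X - C S₃) = X ^ 3 - C (j S + S₂ + S₃) * X ^ 2 +
        C (j S * S₂ + j S * S₃ + S₂ * S₃) * X - C (j S * S₂ * S₃) := by
      simp only [map_add, map_mul]
      ring
    rw [hexp] at hfac
    obtain ⟨hc2, hc1, hc0⟩ := coef3 hfac
    rw [map_mul] at hc2 hc1 hc0
    rw [← hs3, ← ht3] at hc2 hc1 hc0
    have hcst : ∀ x : ℂ, AnalyticAt ℂ (fun _ => x) z₀ := fun x => analyticAt_const
    have hjc : ∀ x : ℂ, j (fun _ => x) = pm L (C x) := by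
      intro x
      rw [← D.pol]
      simp
    -- the three identities in `L`
    have e2 : j (fun z => a * (S z + s₂ z + s₃ z) + b.eval z) = 0 := by
      have t1 := D.add S s₂ hSa hs₂a
      have t2 := D.add (fun z => S z + s₂ z) s₃ (hSa.add hs₂a) hs₃a
      have t3 := D.mul (fun _ => a) (fun z => S z + s₂ z + s₃ z) (hcst a) ((hSa.add hs₂a).add hs₃a)
      have t4 := D.add (fun z => a * (S z + s₂ z + s₃ z)) (fun z => b.eval z)
        ((hcst a).mul ((hSa.add hs₂a).add hs₃a)) (pol_an b z₀)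
      rw [t4, t3, t2, t1, D.pol, hjc]
      linear_combination pm L (C a) * hc2 - pm L b * hCa'
    have e1 : j (fun z => a * (S z * s₂ z + S z * s₃ z + s₂ z * s₃ z) - c.eval z) = 0 := by
      have m1 := D.mul S s₂ hSa hs₂a
      have m2 := D.mul S s₃ hSa hs₃a
      have m3 := D.mul s₂ s₃ hs₂a hs₃a
      have t1 := D.add (fun z => S z * s₂ z) (fun z => S z * s₃ z) (hSa.mul hs₂a) (hSa.mul hs₃a)
      have t2 := D.add (fun z => S z * s₂ z + S z * s₃ z) (fun z => s₂ z * s₃ z)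
        ((hSa.mul hs₂a).add (hSa.mul hs₃a)) (hs₂a.mul hs₃a)
      have t3 := D.mul (fun _ => a) (fun z => S z * s₂ z + S z * s₃ z + s₂ z * s₃ z) (hcst a)
        (((hSa.mul hs₂a).add (hSa.mul hs₃a)).add (hs₂a.mul hs₃a))
      have t4 := D.sub (f := fun z => a * (S z * s₂ z + S z * s₃ z + s₂ z * s₃ z))
        (g := fun z => c.eval z)
        ((hcst a).mul (((hSa.mul hs₂a).add (hSa.mul hs₃a)).add (hs₂a.mul hs₃a))) (pol_an c z₀)
      rw [t4, t3, t2, t1, m1, m2, m3, D.pol, hjc]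
      linear_combination -pm L (C a) * hc1 + pm L c * hCa'
    have e0 : j (fun z => a * (S z * s₂ z * s₃ z) + d.eval z) = 0 := by
      have m1 := D.mul S s₂ hSa hs₂a
      have m2 := D.mul (fun z => S z * s₂ z) s₃ (hSa.mul hs₂a) hs₃a
      have t3 := D.mul (fun _ => a) (fun z => S z * s₂ z * s₃ z) (hcst a)
        ((hSa.mul hs₂a).mul hs₃a)
      have t4 := D.add (fun z => a * (S z * s₂ z * s₃ z)) (fun z => d.eval z)
        ((hcst a).mul ((hSa.mul hs₂a).mul hs₃a)) (pol_an d z₀)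
      rw [t4, t3, m2, m1, D.pol, hjc]
      linear_combination pm L (C a) * hc0 - pm L d * hCa'
    have hbd : DifferentiableOn ℂ (fun z => b.eval z) V := b.differentiable.differentiableOn
    have hcd : DifferentiableOn ℂ (fun z => c.eval z) V := c.differentiable.differentiableOn
    have hdd : DifferentiableOn ℂ (fun z => d.eval z) V := d.differentiable.differentiableOn
    have q2 : DifferentiableOn ℂ (fun z => a * (S z + s₂ z + s₃ z) + b.eval z) V :=
      ((((hS.add hs₂d).add hs₃d).const_mul a).add hbd)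
    have q1 : DifferentiableOn ℂ (fun z => a * (S z * s₂ z + S z * s₃ z + s₂ z * s₃ z) -
        c.eval z) V :=
      (((((hS.mul hs₂d).add (hS.mul hs₃d)).add (hs₂d.mul hs₃d)).const_mul a).sub hcd)
    have q0 : DifferentiableOn ℂ (fun z => a * (S z * s₂ z * s₃ z) + d.eval z) V :=
      ((((hS.mul hs₂d).mul hs₃d).const_mul a).add hdd)
    have f2 := ident hVc hV q2 (differentiableOn_const 0) hz₀
      ((D.zero _ (q2.analyticOnNhd hV z₀ hz₀)).1 e2)
    have f1 := ident hVc hV q1 (differentiableOn_const 0) hz₀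
      ((D.zero _ (q1.analyticOnNhd hV z₀ hz₀)).1 e1)
    have f0 := ident hVc hV q0 (differentiableOn_const 0) hz₀
      ((D.zero _ (q0.analyticOnNhd hV z₀ hz₀)).1 e0)
    intro z hz
    refine ⟨?_, ?_, ?_⟩
    · have := f2 z hz
      linear_combination this
    · have := f1 z hz
      linear_combination this
    · have := f0 z hz
      linear_combination this

end Pool.Agent.Helper72.CO
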