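import Pool.Agent.Helper72.CO.Defs4
import Pool.Agent.Helper72.CO.DB

/-!
# A real cubic in the coordinates `z = x + iy` and `w = x - iy`
-/

set_option autoImplicit false

open MeasureTheory Set Filter Topology Metric Complex

open Pool.Agent.Helper523.LL (dbar)

namespace Pool.Agent.Helper72.CO

/-- value of the form -/
noncomputable def fv (k : Fin 10 → ℝ) (x y t : ℂ) : ℂ :=
  k 0 * x ^ 3 + k 1 * x ^ 2 * y + k 2 * x * y ^ 2 + k 3 * y ^ 3 + k 4 * x ^ 2 * t + k 5 * x * y * t +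
    k 6 * y ^ 2 * t + k 7 * x * t ^ 2 + k 8 * y * t ^ 2 + k 9 * t ^ 3

/-- `∂/∂x` -/
noncomputable def fx (k : Fin 10 → ℝ) (x y t : ℂ) : ℂ :=
  3 * k 0 * x ^ 2 + 2 * k 1 * x * y + k 2 * y ^ 2 + 2 * k 4 * x * t + k 5 * y * t + k 7 * t ^ 2

/-- `∂/∂y` -/
noncomputable def fy (k : Fin 10 → ℝ) (x y t : ℂ) : ℂ :=
  k 1 * x ^ 2 + 2 * k 2 * x * y + 3 * k 3 * y ^ 2 + k 5 * x * t + 2 * k 6 * y * t + k 8 * t ^ 2

/-- `∂/∂t` -/
noncomputable def ft (k : Fin 10 → ℝ) (x y t : ℂ) : ℂ :=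
  k 4 * x ^ 2 + k 5 * x * y + k 6 * y ^ 2 + 2 * k 7 * x * t + 2 * k 8 * y * t + 3 * k 9 * t ^ 2

theorem euler (k : Fin 10 → ℝ) (x y t : ℂ) :
    x * fx k x y t + y * fy k x y t + t * ft k x y t = 3 * fv k x y t := by
  unfold fx fy ft fv
  ring

theorem smooth_iff' {k : Fin 10 → ℝ} (h : Smooth k) {x y t : ℂ} (hv : ¬(x = 0 ∧ y = 0 ∧ t = 0))
    (h0 : fv k x y t = 0) (h1 : fx k x y t = 0) (h2 : fy k x y t = 0) (h3 : ft k x y t = 0) :
    False := by
  have hne : (![x, y, t] : Fin 3 → ℂ) ≠ 0 := by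
    intro h
    apply hv
    refine ⟨?_, ?_, ?_⟩
    · simpa using congrFun h 0
    · simpa using congrFun h 1
    · simpa using congrFun h 2
  obtain ⟨i, hi⟩ := h ![x, y, t] hne (by
    rw [← h0]
    simp [form, fv])
  apply hi
  fin_cases i
  · rw [← h1]
    simp [form, fx, MvPolynomial.pderiv_X]
    ring
  · rw [← h2]
    simp [form, fy, MvPolynomial.pderiv_X]
    ring
  · rw [← h3]
    simp [form, ft, MvPolynomial.pderiv_X]
    ring

/-! ### The coefficients -/

noncomputable def cA (k : Fin 10 → ℝ) : ℂ := ((k 0 - k 2) + I * (k 1 - k 3)) / 8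

noncomputable def cB1 (k : Fin 10 → ℝ) : ℂ := (3 * k 0 + I * k 1 + k 2 + 3 * I * k 3) / 8

noncomputable def cB0 (k : Fin 10 → ℝ) : ℂ := (k 4 + I * k 5 - k 6) / 4

noncomputable def cC2 (k : Fin 10 → ℝ) : ℂ := (3 * k 0 - I * k 1 + k 2 - 3 * I * k 3) / 8

noncomputable def cC1 (k : Fin 10 → ℝ) : ℂ := (k 4 + k 6) / 2

noncomputable def cC0 (k : Fin 10 → ℝ) : ℂ := (k 7 + I * k 8) / 2

noncomputable def cD3 (k : Fin 10 → ℝ) : ℂ := (k 0 - I * k 1 - k 2 + I * k 3) / 8

noncomputable def cD2 (k : Fin 10 → ℝ) : ℂ := (k 4 - I * k 5 - k 6) / 4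

noncomputable def cD1 (k : Fin 10 → ℝ) : ℂ := (k 7 - I * k 8) / 2

section
variable (k : Fin 10 → ℝ) (z w t : ℂ)

theorem fv_eq : fv k ((z + w) / 2) (I * (w - z) / 2) t =
    cA k * w ^ 3 + (cB1 k * z + cB0 k * t) * w ^ 2 + (cC2 k * z ^ 2 + cC1 k * z * t +
      cC0 k * t ^ 2) * w + (cD3 k * z ^ 3 + cD2 k * z ^ 2 * t + cD1 k * z * t ^ 2 + k 9 * t ^ 3) := by
  have hy2 : (I * (w - z) / 2) ^ 2 = -(w - z) ^ 2 / 4 := by
    linear_combination (w - z) ^ 2 / 4 * I_mul_I
  have hy3 : (I * (w - z) / 2) ^ 3 = -I * (w - z) ^ 3 / 8 := by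
    linear_combination I * (w - z) ^ 3 / 8 * I_mul_I
  unfold fv cA cB1 cB0 cC2 cC1 cC0 cD3 cD2 cD1
  linear_combination (k 2 * ((z + w) / 2)) * hy2 + k 3 * hy3 + k 6 * t * hy2

theorem fw_eq : fx k ((z + w) / 2) (I * (w - z) / 2) t + I * fy k ((z + w) / 2) (I * (w - z) / 2) t =
    2 * (3 * cA k * w ^ 2 + 2 * (cB1 k * z + cB0 k * t) * w + (cC2 k * z ^ 2 + cC1 k * z * t +
      cC0 k * t ^ 2)) := by
  have hy2 : (I * (w - z) / 2) ^ 2 = -(w - z) ^ 2 / 4 := by
    linear_combination (w - z) ^ 2 / 4 * I_mul_I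
  have hIy : I * (I * (w - z) / 2) = -(w - z) / 2 := by
    linear_combination (w - z) / 2 * I_mul_I
  unfold fx fy cA cB1 cB0 cC2 cC1 cC0
  linear_combination k 2 * hy2 + 2 * k 2 * ((z + w) / 2) * hIy + 3 * k 3 * I * hy2 +
    2 * k 6 * t * hIy

theorem fz_eq : fx k ((z + w) / 2) (I * (w - z) / 2) t - I * fy k ((z + w) / 2) (I * (w - z) / 2) t =
    2 * (cB1 k * w ^ 2 + (2 * cC2 k * z + cC1 k * t) * w +
      (3 * cD3 k * z ^ 2 + 2 * cD2 k * z * t + cD1 k * t ^ 2)) := by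
  have hy2 : (I * (w - z) / 2) ^ 2 = -(w - z) ^ 2 / 4 := by
    linear_combination (w - z) ^ 2 / 4 * I_mul_I
  have hIy : I * (I * (w - z) / 2) = -(w - z) / 2 := by
    linear_combination (w - z) / 2 * I_mul_I
  unfold fx fy cB1 cC2 cC1 cD3 cD2 cD1
  linear_combination k 2 * hy2 - 2 * k 2 * ((z + w) / 2) * hIy - 3 * k 3 * I * hy2 -
    2 * k 6 * t * hIy

theorem ft0_eq : ft k ((z + w) / 2) (I * (w - z) / 2) 0 =
    cB0 k * w ^ 2 + cC1 k * z * w + cD2 k * z ^ 2 := by
  have hy2 : (I * (w - z) / 2) ^ 2 = -(w - z) ^ 2 / 4 := by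
    linear_combination (w - z) ^ 2 / 4 * I_mul_I
  unfold ft cB0 cC1 cD2
  linear_combination k 6 * hy2

end

theorem cA_ne {k : Fin 10 → ℝ} (h : ¬(k 0 = k 2 ∧ k 1 = k 3)) : cA k ≠ 0 := by
  intro h0
  apply h
  have h1 : ((k 0 - k 2 : ℝ) : ℂ) + I * ((k 1 - k 3 : ℝ) : ℂ) = 0 := by
    unfold cA at h0
    push_cast
    linear_combination 8 * h0
  have hre := congrArg Complex.re h1
  have him := congrArg Complex.im h1
  simp at hre him
  exact ⟨by linarith, by linarith⟩

theorem sing_of {k : Fin 10 → ℝ} (h : Smooth k) {z w t : ℂ} (hv : ¬(z = 0 ∧ w = 0 ∧ t = 0))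
    (h0 : fv k ((z + w) / 2) (I * (w - z) / 2) t = 0)
    (h1 : fx k ((z + w) / 2) (I * (w - z) / 2) t + I * fy k ((z + w) / 2) (I * (w - z) / 2) t = 0)
    (h2 : fx k ((z + w) / 2) (I * (w - z) / 2) t - I * fy k ((z + w) / 2) (I * (w - z) / 2) t = 0)
    (h3 : ft k ((z + w) / 2) (I * (w - z) / 2) t = 0) : False := by
  refine smooth_iff' h ?_ h0 ?_ ?_ h3
  · rintro ⟨e1, e2, e3⟩
    have e4 : w - z = 0 := by
      have h5 : I * (w - z) = 0 := by linear_combination 2 * e2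
      exact (mul_eq_zero.1 h5).resolve_left I_ne_zero
    refine hv ⟨?_, ?_, e3⟩
    · linear_combination e1 - e4 / 2
    · linear_combination e1 + e4 / 2
  · linear_combination (h1 + h2) / 2
  · have h5 : I * fy k ((z + w) / 2) (I * (w - z) / 2) t = 0 := by
      linear_combination (h1 - h2) / 2
    exact (mul_eq_zero.1 h5).resolve_left I_ne_zero

theorem hasF (k : Fin 10 → ℝ) (z : ℂ) : HasFDerivAt (fun z : ℂ => val k z.re z.im)
    ((3 * k 0 * z.re ^ 2 + 2 * k 1 * z.re * z.im + k 2 * z.im ^ 2 + 2 * k 4 * z.re + k 5 * z.im +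
      k 7) • Complex.reCLM + (k 1 * z.re ^ 2 + 2 * k 2 * z.re * z.im + 3 * k 3 * z.im ^ 2 +
      k 5 * z.re + 2 * k 6 * z.im + k 8) • Complex.imCLM) z := by
  have hx : HasFDerivAt (fun z : ℂ => z.re) Complex.reCLM z := Complex.reCLM.hasFDerivAt
  have hy : HasFDerivAt (fun z : ℂ => z.im) Complex.imCLM z := Complex.imCLM.hasFDerivAt
  have h := ((((((((((hx.pow 3).const_mul (k 0)).add (((hx.pow 2).const_mul (k 1)).mul hy)).add
    ((hx.const_mul (k 2)).mul (hy.pow 2))).add ((hy.pow 3).const_mul (k 3))).add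
    ((hx.pow 2).const_mul (k 4))).add ((hx.const_mul (k 5)).mul hy)).add
    ((hy.pow 2).const_mul (k 6))).add (hx.const_mul (k 7))).add (hy.const_mul (k 8))).add_const
    (k 9)
  refine h.congr_fderiv ?_
  ext v
  simp
  ring

/-- The cubic in the coordinates `z` and `w`. -/
theorem cub : S_CUB := by
  intro k hk hne
  have hPs : ∀ z w : ℂ, fv k ((z + w) / 2) (I * (w - z) / 2) 1 =
      Ps (cA k) (Polynomial.C (cB1 k) * Polynomial.X + Polynomial.C (cB0 k))
      (Polynomial.C (cC2 k) * Polynomial.X ^ 2 + Polynomial.C (cC1 k) * Polynomial.X +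
        Polynomial.C (cC0 k))
      (Polynomial.C (cD3 k) * Polynomial.X ^ 3 + Polynomial.C (cD2 k) * Polynomial.X ^ 2 +
        Polynomial.C (cD1 k) * Polynomial.X + Polynomial.C (k 9 : ℂ)) z w := by
    intro z w
    rw [fv_eq, Ps]
    simp
  have hPw : ∀ z w : ℂ, fx k ((z + w) / 2) (I * (w - z) / 2) 1 +
      I * fy k ((z + w) / 2) (I * (w - z) / 2) 1 =
      2 * Pw (cA k) (Polynomial.C (cB1 k) * Polynomial.X + Polynomial.C (cB0 k))
      (Polynomial.C (cC2 k) * Polynomial.X ^ 2 + Polynomial.C (cC1 k) * Polynomial.X +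
        Polynomial.C (cC0 k)) z w := by
    intro z w
    rw [fw_eq, Pw]
    simp
  have hPz : ∀ z w : ℂ, fx k ((z + w) / 2) (I * (w - z) / 2) 1 -
      I * fy k ((z + w) / 2) (I * (w - z) / 2) 1 =
      2 * Pz (Polynomial.C (cB1 k) * Polynomial.X + Polynomial.C (cB0 k))
      (Polynomial.C (cC2 k) * Polynomial.X ^ 2 + Polynomial.C (cC1 k) * Polynomial.X +
        Polynomial.C (cC0 k))
      (Polynomial.C (cD3 k) * Polynomial.X ^ 3 + Polynomial.C (cD2 k) * Polynomial.X ^ 2 +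
        Polynomial.C (cD1 k) * Polynomial.X + Polynomial.C (k 9 : ℂ)) z w := by
    intro z w
    rw [fz_eq, Pz]
    simp
    ring
  have hconj : ∀ z : ℂ, (z + starRingEnd ℂ z) / 2 = (z.re : ℂ) ∧
      I * (starRingEnd ℂ z - z) / 2 = (z.im : ℂ) := by
    intro z
    constructor
    · apply Complex.ext <;> simp
    · apply Complex.ext <;> simp
  have hfv : ∀ z : ℂ, (val k z.re z.im : ℂ) = fv k (z.re) (z.im) 1 := by
    intro z
    unfold val fv
    push_cast
    ring
  have hgx : ∀ z : ℂ, ((3 * k 0 * z.re ^ 2 + 2 * k 1 * z.re * z.im + k 2 * z.im ^ 2 +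
      2 * k 4 * z.re + k 5 * z.im + k 7 : ℝ) : ℂ) = fx k z.re z.im 1 := by
    intro z
    unfold fx
    push_cast
    ring
  have hgy : ∀ z : ℂ, ((k 1 * z.re ^ 2 + 2 * k 2 * z.re * z.im + 3 * k 3 * z.im ^ 2 +
      k 5 * z.re + 2 * k 6 * z.im + k 8 : ℝ) : ℂ) = fy k z.re z.im 1 := by
    intro z
    unfold fy
    push_cast
    ring
  refine ⟨cA k, Polynomial.C (cB1 k) * Polynomial.X + Polynomial.C (cB0 k),
    Polynomial.C (cC2 k) * Polynomial.X ^ 2 + Polynomial.C (cC1 k) * Polynomial.X +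
      Polynomial.C (cC0 k),
    Polynomial.C (cD3 k) * Polynomial.X ^ 3 + Polynomial.C (cD2 k) * Polynomial.X ^ 2 +
        Polynomial.C (cD1 k) * Polynomial.X + Polynomial.C (k 9 : ℂ), ?_, ?_, ?_, ?_, ?_⟩
  · refine ⟨cA_ne hne, ?_, ?_, ?_, ?_, ?_⟩
    · compute_degree
    · compute_degree
    · compute_degree
    · intro z w h0 h1 h2
      have e0 := hPs z w
      have e1 := hPw z w
      have e2 := hPz z w
      rw [h0] at e0
      rw [h1, mul_zero] at e1
      rw [h2, mul_zero] at e2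
      refine sing_of hk (t := 1) (fun h => one_ne_zero h.2.2) e0 e1 e2 ?_
      have e3 := euler k ((z + w) / 2) (I * (w - z) / 2) 1
      have e4 : fx k ((z + w) / 2) (I * (w - z) / 2) 1 = 0 := by
        linear_combination (e1 + e2) / 2
      have e5 : fy k ((z + w) / 2) (I * (w - z) / 2) 1 = 0 := by
        have h5 : I * fy k ((z + w) / 2) (I * (w - z) / 2) 1 = 0 := by
          linear_combination (e1 - e2) / 2
        exact (mul_eq_zero.1 h5).resolve_left I_ne_zero
      rw [e0, e4, e5] at e3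
      linear_combination e3
    · intro l h0 h1 h2
      have q1 : (Polynomial.C (cB1 k) * Polynomial.X + Polynomial.C (cB0 k)).coeff 1 = cB1 k := by
        simp [Polynomial.coeff_X, Polynomial.coeff_C]
      have q2 : (Polynomial.C (cB1 k) * Polynomial.X + Polynomial.C (cB0 k)).coeff 0 = cB0 k := by
        simp
      have q3 : (Polynomial.C (cC2 k) * Polynomial.X ^ 2 + Polynomial.C (cC1 k) * Polynomial.X +
          Polynomial.C (cC0 k)).coeff 2 = cC2 k := by
        simp [Polynomial.coeff_X, Polynomial.coeff_C]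
      have q4 : (Polynomial.C (cC2 k) * Polynomial.X ^ 2 + Polynomial.C (cC1 k) * Polynomial.X +
          Polynomial.C (cC0 k)).coeff 1 = cC1 k := by
        simp [Polynomial.coeff_X, Polynomial.coeff_C, Polynomial.coeff_X_pow]
      have q5 : (Polynomial.C (cD3 k) * Polynomial.X ^ 3 + Polynomial.C (cD2 k) *
          Polynomial.X ^ 2 + Polynomial.C (cD1 k) * Polynomial.X +
          Polynomial.C (k 9 : ℂ)).coeff 3 = cD3 k := by
        simp [Polynomial.coeff_X, Polynomial.coeff_C, Polynomial.coeff_X_pow]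
      have q6 : (Polynomial.C (cD3 k) * Polynomial.X ^ 3 + Polynomial.C (cD2 k) *
          Polynomial.X ^ 2 + Polynomial.C (cD1 k) * Polynomial.X +
          Polynomial.C (k 9 : ℂ)).coeff 2 = cD2 k := by
        simp [Polynomial.coeff_X, Polynomial.coeff_C, Polynomial.coeff_X_pow]
      rw [q1, q3, q5] at h0
      rw [q1, q3] at h1
      rw [q2, q4, q6] at h2
      have e0 := fv_eq k 1 l 0
      have e1 := fw_eq k 1 l 0
      have e2 := fz_eq k 1 l 0
      have e3 := ft0_eq k 1 l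
      have e4 := euler k ((1 + l) / 2) (I * (l - 1) / 2) 0
      have f0 : fv k ((1 + l) / 2) (I * (l - 1) / 2) 0 = 0 := by
        rw [e0]
        linear_combination h0
      have f1 : fx k ((1 + l) / 2) (I * (l - 1) / 2) 0 +
          I * fy k ((1 + l) / 2) (I * (l - 1) / 2) 0 = 0 := by
        rw [e1]
        linear_combination 2 * h1
      have f3 : ft k ((1 + l) / 2) (I * (l - 1) / 2) 0 = 0 := by
        rw [e3]
        linear_combination h2
      have f2 : fx k ((1 + l) / 2) (I * (l - 1) / 2) 0 -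
          I * fy k ((1 + l) / 2) (I * (l - 1) / 2) 0 = 0 := by
        rw [f0, f3] at e4
        linear_combination 2 * e4 - l * f1
      exact sing_of hk (t := 0) (fun h => one_ne_zero h.1) f0 f1 f2 f3
  · intro z
    rw [← hPs, (hconj z).1, (hconj z).2, hfv]
  · have h1 : ContDiff ℝ 1 (fun z : ℂ => z.re) := Complex.reCLM.contDiff
    have h2 : ContDiff ℝ 1 (fun z : ℂ => z.im) := Complex.imCLM.contDiff
    unfold val
    exact (((((((((contDiff_const.mul (h1.pow 3)).add ((contDiff_const.mul (h1.pow 2)).mul h2)).add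
      ((contDiff_const.mul h1).mul (h2.pow 2))).add (contDiff_const.mul (h2.pow 3))).add
      (contDiff_const.mul (h1.pow 2))).add ((contDiff_const.mul h1).mul h2)).add
      (contDiff_const.mul (h2.pow 2))).add (contDiff_const.mul h1)).add
      (contDiff_const.mul h2)).add contDiff_const
  · intro z hz h0
    rw [(hasF k z).fderiv] at h0
    have h1 := congrArg (fun L : ℂ →L[ℝ] ℝ => L 1) h0
    have h2 := congrArg (fun L : ℂ →L[ℝ] ℝ => L I) h0
    simp only [_root_.add_apply, _root_.smul_apply, Complex.reCLM_apply, Complex.imCLM_apply,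
      Complex.one_re, Complex.one_im, Complex.I_re, Complex.I_im, smul_eq_mul, mul_one, mul_zero,
      add_zero, zero_add, _root_.zero_apply] at h1 h2
    have g1 := hgx z
    have g2 := hgy z
    have g0 := hfv z
    rw [h1] at g1
    rw [h2] at g2
    rw [hz] at g0
    have e3 := euler k z.re z.im 1
    rw [← g0, ← g1, ← g2] at e3
    simp only [Complex.ofReal_zero, mul_zero, zero_add, one_mul] at e3 g0 g1 g2
    exact smooth_iff' hk (fun h => one_ne_zero h.2.2) g0.symm g1.symm g2.symm e3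
  · intro z
    have h1 : HasFDerivAt (fun z : ℂ => (val k z.re z.im : ℂ)) (Complex.ofRealCLM.comp
        ((3 * k 0 * z.re ^ 2 + 2 * k 1 * z.re * z.im + k 2 * z.im ^ 2 + 2 * k 4 * z.re +
        k 5 * z.im + k 7) • Complex.reCLM + (k 1 * z.re ^ 2 + 2 * k 2 * z.re * z.im +
        3 * k 3 * z.im ^ 2 + k 5 * z.re + 2 * k 6 * z.im + k 8) • Complex.imCLM)) z :=
      Complex.ofRealCLM.hasFDerivAt.comp z (hasF k z)
    unfold dbar
    rw [h1.fderiv]
    simp only [ContinuousLinearMap.comp_apply, _root_.add_apply, _root_.smul_apply,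
      Complex.reCLM_apply, Complex.imCLM_apply, Complex.one_re, Complex.one_im, Complex.I_re,
      Complex.I_im, smul_eq_mul, mul_one, mul_zero, add_zero, zero_add,
      Complex.ofRealCLM_apply]
    rw [hgx, hgy]
    have h2 := hPw z (starRingEnd ℂ z)
    rw [(hconj z).1, (hconj z).2] at h2
    linear_combination h2 / 2

end Pool.Agent.Helper72.CO
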