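import Pool.Graph.R_seed8.Helper523.LL.Pompeiu

/-!
# The exterior Cauchy transform of a cubic oval: definitions and interfaces
-/

set_option autoImplicit false

open MeasureTheory Set Filter Topology Metric Complex Polynomial

namespace Pool.Agent.Helper72.CO

/-- The algebraic part of the proof. -/
def S_ALG : Prop :=
  ∀ (K Ω : Type) [Field K] [Field Ω] [Algebra K Ω] [CharZero K] [IsAlgClosed Ω]
    (F G S : Ω), F + G = S → IsAlgebraic K F → ∀ p : K[X], Irreducible p → p.Monic →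
    p.natDegree = 3 → aeval S p = 0 →
    (∀ x ∈ IntermediateField.adjoin K {F}, x ∈ IntermediateField.adjoin K {G} →
      ∃ k : K, algebraMap K Ω k = x) →
    S ∈ IntermediateField.adjoin K {F} ∨ S ∈ IntermediateField.adjoin K {G} ∨
      ∃ S₂ S₃ : Ω, S₂ ∈ IntermediateField.adjoin K {G} ∧ S₃ ∈ IntermediateField.adjoin K {F} ∧
        p.map (algebraMap K Ω) = (X - C S) * (X - C S₂) * (X - C S₃)

/-- The two sides of a compact component of a regular level set in the plane. -/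
def S_GEO : Prop :=
  ∀ (P : ℂ → ℝ), ContDiff ℝ 1 P → (∀ z, P z = 0 → fderiv ℝ P z ≠ 0) →
    ∀ (Γ Ω : Set ℂ) (x y : ℂ), P x = 0 → Γ = connectedComponentIn {z | P z = 0} x →
    IsCompact Γ → y ∉ Γ → Ω = connectedComponentIn Γᶜ y → Bornology.IsBounded Ω →
    IsOpen Ω ∧ IsConnected Ω ∧ closure Ω = Ω ∪ Γ ∧ IsConnected (closure Ω)ᶜ ∧
      ∃ s : ℝ, (s = 1 ∨ s = -1) ∧ ∀ ζ ∈ Γ, ∀ᶠ z in 𝓝 ζ, (P z = 0 → z ∈ Γ) ∧
        (0 < s * P z → z ∈ Ω) ∧ (s * P z < 0 → z ∉ closure Ω)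

/-- A global holomorphic root near a compact set. -/
def S_ROOT : Prop :=
  ∀ (a : ℂ) (b c d : ℂ[X]) (Γ : Set ℂ), IsCompact Γ →
    (∀ z ∈ Γ, a * (starRingEnd ℂ z) ^ 3 + b.eval z * (starRingEnd ℂ z) ^ 2 +
      c.eval z * starRingEnd ℂ z + d.eval z = 0) →
    (∀ z ∈ Γ, 3 * a * (starRingEnd ℂ z) ^ 2 + 2 * b.eval z * starRingEnd ℂ z + c.eval z ≠ 0) →
    ∃ (N : Set ℂ) (S : ℂ → ℂ), IsOpen N ∧ Γ ⊆ N ∧ DifferentiableOn ℂ S N ∧
      (∀ z ∈ N, a * S z ^ 3 + b.eval z * S z ^ 2 + c.eval z * S z + d.eval z = 0) ∧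
      ∀ z ∈ Γ, S z = starRingEnd ℂ z

end Pool.Agent.Helper72.CO
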