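import Pool.Agent.Helper72.CO.Defs3
import Pool.Graph.R_seed8.Helper523.LL.Pompeiu

/-!
# The exterior Cauchy transform of a cubic oval: the cubics
-/

set_option autoImplicit false

open MeasureTheory Set Filter Topology Metric Complex

open Pool.Agent.Helper523.LL (dbar)

namespace Pool.Agent.Helper72.CO

/-- The real polynomial of degree at most three with coefficient vector `c`, in the order
`x³, x²y, xy², y³, x², xy, y², x, y, 1`. -/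
def val (c : Fin 10 → ℝ) (x y : ℝ) : ℝ :=
  c 0 * x ^ 3 + c 1 * x ^ 2 * y + c 2 * x * y ^ 2 + c 3 * y ^ 3 + c 4 * x ^ 2 + c 5 * x * y +
    c 6 * y ^ 2 + c 7 * x + c 8 * y + c 9

/-- The homogenisation of `val c`, with complex coefficients; the variables are `x, y, t`. -/
noncomputable def form (c : Fin 10 → ℝ) : MvPolynomial (Fin 3) ℂ :=
  open MvPolynomial in
  C (c 0 : ℂ) * X 0 ^ 3 + C (c 1 : ℂ) * X 0 ^ 2 * X 1 + C (c 2 : ℂ) * X 0 * X 1 ^ 2 +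
    C (c 3 : ℂ) * X 1 ^ 3 + C (c 4 : ℂ) * X 0 ^ 2 * X 2 + C (c 5 : ℂ) * X 0 * X 1 * X 2 +
    C (c 6 : ℂ) * X 1 ^ 2 * X 2 + C (c 7 : ℂ) * X 0 * X 2 ^ 2 + C (c 8 : ℂ) * X 1 * X 2 ^ 2 +
    C (c 9 : ℂ) * X 2 ^ 3

/-- The projective closure in `ℂP²` is nonsingular. -/
def Smooth (c : Fin 10 → ℝ) : Prop :=
  ∀ v : Fin 3 → ℂ, v ≠ 0 → MvPolynomial.eval v (form c) = 0 →
    ∃ i, MvPolynomial.eval v (MvPolynomial.pderiv i (form c)) ≠ 0

/-- The cubic in the coordinates `z` and `w`. -/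
def S_CUB : Prop :=
  ∀ k : Fin 10 → ℝ, Smooth k → ¬(k 0 = k 2 ∧ k 1 = k 3) →
    ∃ (a : ℂ) (b c d : Polynomial ℂ), Nons a b c d ∧
      (∀ z : ℂ, (val k z.re z.im : ℂ) = Ps a b c d z (starRingEnd ℂ z)) ∧
      ContDiff ℝ 1 (fun z : ℂ => val k z.re z.im) ∧
      (∀ z : ℂ, val k z.re z.im = 0 → fderiv ℝ (fun z : ℂ => val k z.re z.im) z ≠ 0) ∧
      ∀ z : ℂ, dbar (fun z : ℂ => (val k z.re z.im : ℂ)) z = Pw a b c z (starRingEnd ℂ z)

end Pool.Agent.Helper72.CO
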