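import Pool.Agent.Helper72.CO.AN
import Pool.Agent.Helper72.CO.Cases

/-!
# The Cauchy transform of a cubic oval is not algebraic
-/

set_option autoImplicit false

open MeasureTheory Set Filter Topology Metric Complex Polynomial

open Pool.Agent.Helper523.LL (dbar)

namespace Pool.Agent.Helper72.CO

/-- The points outside the closure of `Ω` whose component is unbounded. -/
def outer (Ω : Set ℂ) : Set ℂ :=
  {z | z ∉ closure Ω ∧ ¬ Bornology.IsBounded (connectedComponentIn (closure Ω)ᶜ z)}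

/-- The exterior Cauchy transform is algebraic. -/
def AlgebraicCauchy (Ω : Set ℂ) : Prop :=
  ∃ Q : ℂ[X][X], Q ≠ 0 ∧ ∀ z ∈ outer Ω, Q.evalEval z (cauchy Ω z) = 0

theorem outer_eq {Ω : Set ℂ} (hb : Bornology.IsBounded Ω) (hc : IsConnected (closure Ω)ᶜ) :
    outer Ω = (closure Ω)ᶜ := by
  ext z
  refine ⟨fun h => h.1, fun h => ⟨h, fun hB => ?_⟩⟩
  rw [hc.isPreconnected.connectedComponentIn h] at hB
  have h1 := hB.union hb.closure
  rw [compl_union_self] at h1
  exact NormedSpace.unbounded_univ ℝ ℂ h1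

theorem nz {a : ℂ} {b c d : ℂ[X]} (h : Nons a b c d) {W : Set ℂ} {s : ℂ → ℂ} (hW : IsOpen W)
    (hs : DifferentiableOn ℂ s W) (h0 : ∀ z ∈ W, Ps a b c d z (s z) = 0) :
    ∀ z ∈ W, Pw a b c z (s z) ≠ 0 := by
  intro z hz hw
  refine h.aff z (s z) (h0 z hz) hw ?_
  have hd : HasDerivAt s (deriv s z) z := (hs.differentiableAt (hW.mem_nhds hz)).hasDerivAt
  have h1 : HasDerivAt (fun z => Ps a b c d z (s z))
      (Pz b c d z (s z) + Pw a b c z (s z) * deriv s z) z := by
    have t3 := (hd.pow 3).const_mul a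
    have t2 := (b.hasDerivAt z).mul (hd.pow 2)
    have t1 := (c.hasDerivAt z).mul hd
    have t0 := d.hasDerivAt z
    have t := ((t3.add t2).add t1).add t0
    refine t.congr_deriv ?_
    simp only [Pz, Pw, Pi.pow_apply]
    push_cast
    ring
  have h2 : HasDerivAt (fun z => Ps a b c d z (s z)) 0 z := by
    refine (hasDerivAt_const z (0 : ℂ)).congr_of_eventuallyEq ?_
    filter_upwards [hW.mem_nhds hz] with w hw
    exact h0 w hw
  have h3 := h1.unique h2
  rw [hw, zero_mul, add_zero] at h3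
  exact h3

theorem dbar_real_zero {P : ℂ → ℝ} {z : ℂ} (hP : DifferentiableAt ℝ P z)
    (h : dbar (fun z => (P z : ℂ)) z = 0) : fderiv ℝ P z = 0 := by
  have h1 : HasFDerivAt (fun z => (P z : ℂ)) (Complex.ofRealCLM.comp (fderiv ℝ P z)) z :=
    Complex.ofRealCLM.hasFDerivAt.comp z hP.hasFDerivAt
  unfold dbar at h
  rw [h1.fderiv] at h
  simp only [ContinuousLinearMap.comp_apply, Complex.ofRealCLM_apply] at h
  have h2 : ((fderiv ℝ P z 1 : ℝ) : ℂ) + Complex.I * ((fderiv ℝ P z Complex.I : ℝ) : ℂ) = 0 := by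
    linear_combination 2 * h
  have hre := congrArg Complex.re h2
  have him := congrArg Complex.im h2
  simp at hre him
  ext v
  have hv : v = (v.re : ℝ) • (1 : ℂ) + (v.im : ℝ) • Complex.I := by
    simp [Complex.re_add_im]
  rw [hv, map_add, map_smul, map_smul, hre, him]
  simp

theorem thick_conn {Γ : Set ℂ} (hΓ : IsPreconnected Γ) {x : ℂ} (hx : x ∈ Γ) {δ : ℝ} (hδ : 0 < δ) :
    IsPreconnected (thickening δ Γ) := by
  have h : thickening δ Γ = ⋃₀ ((fun ζ => Γ ∪ ball ζ δ) '' Γ) := by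
    rw [thickening_eq_biUnion_ball]
    ext z
    simp only [mem_iUnion, mem_sUnion, mem_image, exists_exists_and_eq_and, exists_prop]
    constructor
    · rintro ⟨ζ, h1, h2⟩
      exact ⟨ζ, h1, Or.inr h2⟩
    · rintro ⟨ζ, h1, h2 | h2⟩
      · exact ⟨z, h2, mem_ball_self hδ⟩
      · exact ⟨ζ, h1, h2⟩
  rw [h]
  refine isPreconnected_sUnion x _ ?_ ?_
  · rintro _ ⟨ζ, _, rfl⟩
    exact Or.inl hx
  · rintro _ ⟨ζ, hζ, rfl⟩
    exact hΓ.union ζ hζ (mem_ball_self hδ) (convex_ball ζ δ).isPreconnected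

theorem pw_cont {a : ℂ} {b c : ℂ[X]} {S : ℂ → ℂ} {V : Set ℂ} (hS : ContinuousOn S V) :
    ContinuousOn (fun z => Pw a b c z (S z)) V := by
  unfold Pw
  have hb := b.continuous
  have hc := c.continuous
  fun_prop

theorem pw_diff {a : ℂ} {b c : ℂ[X]} {S : ℂ → ℂ} {V : Set ℂ} (hS : DifferentiableOn ℂ S V) :
    DifferentiableOn ℂ (fun z => Pw a b c z (S z)) V := by
  unfold Pw
  have hb := b.differentiable
  have hc := c.differentiable
  fun_prop

theorem main_abs (hGERM : S_GERM) (hIRR : S_IRR) (hALG : S_ALG) (hENT : S_ENT) (hDIV : S_DIV)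
    (hINF : S_INF) (hINT : S_INT) (hGEO : S_GEO) (hROOT : S_ROOT) {a : ℂ} {b c d : ℂ[X]}
    (hN : Nons a b c d) {P : ℂ → ℝ} (hP : ContDiff ℝ 1 P)
    (hPs : ∀ z, (P z : ℂ) = Ps a b c d z (starRingEnd ℂ z))
    (hreg : ∀ z, P z = 0 → fderiv ℝ P z ≠ 0)
    (hdb : ∀ z, dbar (fun z => (P z : ℂ)) z = Pw a b c z (starRingEnd ℂ z)) {Γ Ω : Set ℂ} {x y : ℂ}
    (hx : P x = 0) (hΓ : Γ = connectedComponentIn {z | P z = 0} x) (hΓc : IsCompact Γ)
    (hy : y ∉ Γ) (hΩ : Ω = connectedComponentIn Γᶜ y) (hΩb : Bornology.IsBounded Ω) :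
    ¬ AlgebraicCauchy Ω := by
  classical
  rintro ⟨Q, hQ, hQz⟩
  obtain ⟨hΩo, hΩc, hcl, hUc, s, hs, hside⟩ := hGEO P hP hreg Γ Ω x y hx hΓ hΓc hy hΩ hΩb
  have hdP : Differentiable ℝ P := hP.differentiable (by norm_num)
  have hPΓ : ∀ z ∈ Γ, P z = 0 := by
    intro z hz
    rw [hΓ] at hz
    have h1 := connectedComponentIn_subset {z | P z = 0} x hz
    exact h1
  have hxΓ : x ∈ Γ := by
    rw [hΓ]
    exact mem_connectedComponentIn hx
  have hΓpre : IsPreconnected Γ := by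
    rw [hΓ]
    exact isPreconnected_connectedComponentIn
  have hΩΓ : Disjoint Ω Γ := by
    rw [Set.disjoint_left]
    intro z hz
    rw [hΩ] at hz
    exact connectedComponentIn_subset _ _ hz
  have hPwΓ : ∀ z ∈ Γ, Pw a b c z (starRingEnd ℂ z) ≠ 0 := by
    intro z hz h0
    rw [← hdb z] at h0
    exact hreg z (hPΓ z hz) (dbar_real_zero (hdP z) h0)
  obtain ⟨N, S, hNo, hΓN, hSN, hSN0, hSΓ⟩ := hROOT a b c d Γ hΓc
    (fun z hz => by
      have := hPs z
      rw [hPΓ z hz] at this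
      simpa [Ps] using this.symm) hPwΓ
  set E : ℂ → ℂ := fun z => a * (starRingEnd ℂ z ^ 2 + starRingEnd ℂ z * S z + S z ^ 2) +
    b.eval z * (starRingEnd ℂ z + S z) + c.eval z with hE
  have hPE : ∀ z ∈ N, (P z : ℂ) = (starRingEnd ℂ z - S z) * E z := by
    intro z hz
    have h1 := hSN0 z hz
    rw [hPs z, hE, Ps]
    linear_combination h1
  have hEc : ContinuousOn E N := by
    have h1 : ContinuousOn S N := hSN.continuousOn
    have h2 : Continuous fun z : ℂ => starRingEnd ℂ z := Complex.continuous_conj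
    have hb := b.continuous
    have hc := c.continuous
    rw [hE]
    fun_prop
  have hEΓ : ∀ z ∈ Γ, E z ≠ 0 := by
    intro z hz
    have h1 : E z = Pw a b c z (starRingEnd ℂ z) := by
      rw [hE, Pw]
      simp only
      rw [hSΓ z hz]
      ring
    rw [h1]
    exact hPwΓ z hz
  -- a thin neighbourhood
  set T : Set ℂ := {z | z ∈ N ∧ E z ≠ 0 ∧ (P z = 0 → z ∈ Γ) ∧ (0 < s * P z → z ∈ Ω) ∧
    (s * P z < 0 → z ∉ closure Ω)} with hT
  have hTn : Γ ⊆ interior T := by
    intro ζ hζ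
    rw [mem_interior_iff_mem_nhds]
    have h1 : ∀ᶠ z in 𝓝 ζ, z ∈ N := hNo.mem_nhds (hΓN hζ)
    have h2 : ∀ᶠ z in 𝓝 ζ, E z ≠ 0 :=
      (hEc.continuousAt (hNo.mem_nhds (hΓN hζ))).eventually_ne (hEΓ ζ hζ)
    filter_upwards [h1, h2, hside ζ hζ] with z h1 h2 h3
    exact ⟨h1, h2, h3.1, h3.2.1, h3.2.2⟩
  obtain ⟨δ, hδ, hδT⟩ := hΓc.exists_thickening_subset_open isOpen_interior hTn
  set V : Set ℂ := thickening δ Γ with hV
  have hVT : V ⊆ T := hδT.trans interior_subset
  have hVo : IsOpen V := isOpen_thickening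
  have hΓV : Γ ⊆ V := self_subset_thickening hδ Γ
  have hVc : IsPreconnected V := thick_conn hΓpre hxΓ hδ
  have hVN : V ⊆ N := fun z hz => (hVT hz).1
  have hSV : DifferentiableOn ℂ S V := hSN.mono hVN
  have hSVr : ∀ z ∈ V, Ps a b c d z (S z) = 0 := fun z hz => hSN0 z (hVN hz)
  have hVΩ : ∀ z ∈ V, z ∈ Ω ↔ 0 < s * P z := by
    intro z hz
    obtain ⟨-, -, h1, h2, h3⟩ := hVT hz
    refine ⟨fun h => ?_, h2⟩
    have hs0 : s ≠ 0 := by rcases hs with h | h <;> rw [h] <;> norm_num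
    rcases lt_trichotomy (s * P z) 0 with h4 | h4 | h4
    · exact absurd (subset_closure h) (h3 h4)
    · have h5 : P z = 0 := (mul_eq_zero.1 h4).resolve_left hs0
      exact absurd (h1 h5) (Set.disjoint_left.1 hΩΓ h)
    · exact h4
  -- the two functions
  set F : ℂ → ℂ := fun z => cauchy Ω z + Ω.indicator (fun z => S z - starRingEnd ℂ z) z with hF
  set G : ℂ → ℂ := fun z => if z ∈ Ω then starRingEnd ℂ z - cauchy Ω z else S z - F z with hG
  set W₁ : Set ℂ := (closure Ω)ᶜ ∪ V with hW₁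
  set W₂ : Set ℂ := Ω ∪ V with hW₂
  have hFout : ∀ z, z ∉ Ω → F z = cauchy Ω z := by
    intro z hz
    rw [hF]
    simp only
    rw [indicator_of_notMem hz, add_zero]
  have hFin : ∀ z ∈ Ω, F z = S z - (starRingEnd ℂ z - cauchy Ω z) := by
    intro z hz
    rw [hF]
    simp only
    rw [indicator_of_mem hz]
    ring
  have hGin : ∀ z ∈ Ω, G z = starRingEnd ℂ z - cauchy Ω z := fun z hz => if_pos hz
  have hGV : ∀ z, G z = S z - F z ∨ z ∈ Ω := by
    intro z
    by_cases hz : z ∈ Ω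
    · exact Or.inr hz
    · left
      exact if_neg hz
  have hGV : ∀ z, G z = S z - F z := by
    intro z
    by_cases hz : z ∈ Ω
    · rw [hGin z hz, hFin z hz]
      ring
    · exact if_neg hz
  have hFd : DifferentiableOn ℂ F W₁ := by
    intro z hz
    apply DifferentiableAt.differentiableWithinAt
    by_cases hz1 : z ∈ closure Ω
    · have hzV : z ∈ V := hz.resolve_left (fun h => h hz1)
      by_cases hz2 : z ∈ Ω
      · have h1 : DifferentiableAt ℂ S z := hSV.differentiableAt (hVo.mem_nhds hzV)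
        refine (h1.sub (cauchy_diff_in hΩo hΩb hz2)).congr_of_eventuallyEq ?_
        filter_upwards [hΩo.mem_nhds hz2] with w hw
        exact hFin w hw
      · have hzΓ : z ∈ Γ := by
          rw [hcl] at hz1
          exact hz1.resolve_left hz2
        have hEz : 0 < ‖E z‖ / 2 := by
          have := norm_pos_iff.2 (hEΓ z hzΓ)
          positivity
        have h1 : ∀ᶠ w in 𝓝 z, w ∈ V ∧ ‖E z‖ / 2 < ‖E w‖ := by
          refine (show ∀ᶠ w in 𝓝 z, w ∈ V from hVo.mem_nhds hzV).and ?_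
          have h2 : ContinuousAt (fun w => ‖E w‖) z :=
            (hEc.continuousAt (hNo.mem_nhds (hVN hzV))).norm
          exact h2.eventually (lt_mem_nhds (by linarith))
        obtain ⟨r, hr, hball⟩ := Metric.eventually_nhds_iff_ball.1 h1
        have hQ1 : ContDiff ℝ 1 fun w => s * P w := contDiff_const.mul hP
        refine an hΩo hΩb hQ1 hr (C := 2 / ‖E z‖) (hSV.mono fun w hw => (hball w hw).1) ?_
          (fun w hw => hVΩ w (hball w hw).1)
        intro w hw
        obtain ⟨hwV, hwE⟩ := hball w hw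
        have h2 := hPE w (hVN hwV)
        have h3 : |s * P w| = ‖S w - starRingEnd ℂ w‖ * ‖E w‖ := by
          have h4 : ‖(P w : ℂ)‖ = ‖S w - starRingEnd ℂ w‖ * ‖E w‖ := by
            rw [h2, norm_mul, norm_sub_rev]
          rw [Complex.norm_real, Real.norm_eq_abs] at h4
          rw [abs_mul, h4]
          rcases hs with h | h <;> rw [h] <;> simp
        rw [h3, div_mul_eq_mul_div, le_div_iff₀ (by linarith)]
        have h5 := norm_nonneg (S w - starRingEnd ℂ w)
        nlinarith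
    · refine (cauchy_diff_out hΩo.measurableSet hΩb hz1).congr_of_eventuallyEq ?_
      filter_upwards [isClosed_closure.isOpen_compl.mem_nhds hz1] with w hw
      exact hFout w fun h => hw (subset_closure h)
  have hGd : DifferentiableOn ℂ G W₂ := by
    intro z hz
    apply DifferentiableAt.differentiableWithinAt
    rcases hz with hz | hz
    · refine (cauchy_diff_in hΩo hΩb hz).congr_of_eventuallyEq ?_
      filter_upwards [hΩo.mem_nhds hz] with w hw
      exact hGin w hw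
    · have h1 : DifferentiableAt ℂ S z := hSV.differentiableAt (hVo.mem_nhds hz)
      have h2 : DifferentiableAt ℂ F z := (hFd z (Or.inr hz)).differentiableAt
        (mem_of_superset (hVo.mem_nhds hz) fun w hw => Or.inr hw)
      refine (h1.sub h2).congr_of_eventuallyEq ?_
      exact Eventually.of_forall hGV
  -- connectedness
  have hW₁o : IsOpen W₁ := isClosed_closure.isOpen_compl.union hVo
  have hW₂o : IsOpen W₂ := hΩo.union hVo
  have hVΩne : ∃ p, p ∈ V ∧ p ∈ Ω := by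
    have h1 : x ∈ closure Ω := by
      rw [hcl]
      exact Or.inr hxΓ
    obtain ⟨p, hp1, hp2⟩ := mem_closure_iff.1 h1 V hVo (hΓV hxΓ)
    exact ⟨p, hp1, hp2⟩
  have hVUne : ∃ p, p ∈ V ∧ p ∈ (closure Ω)ᶜ := by
    by_contra hcon
    push Not at hcon
    have h1 : IsLocalMin (fun z => s * P z) x := by
      filter_upwards [hVo.mem_nhds (hΓV hxΓ)] with w hw
      rw [hPΓ x hxΓ, mul_zero]
      have h2 : w ∈ closure Ω := by
        have := hcon w hw
        simpa using this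
      rw [hcl] at h2
      rcases h2 with h2 | h2
      · exact ((hVΩ w hw).1 h2).le
      · rw [hPΓ w h2, mul_zero]
    have h2 := h1.fderiv_eq_zero
    have h3 : fderiv ℝ (fun z => s * P z) x = s • fderiv ℝ P x := by
      rw [fderiv_const_mul (hdP x)]
    rw [h3] at h2
    have hs0 : s ≠ 0 := by rcases hs with h | h <;> rw [h] <;> norm_num
    exact hreg x hx ((smul_eq_zero.1 h2).resolve_left hs0)
  have hW₁c : IsPreconnected W₁ := by
    obtain ⟨p, hp1, hp2⟩ := hVUne
    exact hUc.isPreconnected.union p hp2 hp1 hVc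
  have hW₂c : IsPreconnected W₂ := by
    obtain ⟨p, hp1, hp2⟩ := hVΩne
    exact hΩc.isPreconnected.union p hp2 hp1 hVc
  have hcov : W₁ ∪ W₂ = univ := by
    rw [eq_univ_iff_forall]
    intro z
    by_cases h1 : z ∈ closure Ω
    · rw [hcl] at h1
      rcases h1 with h1 | h1
      · exact Or.inr (Or.inl h1)
      · exact Or.inl (Or.inr (hΓV h1))
    · exact Or.inl (Or.inl h1)
  have hint : W₁ ∩ W₂ ⊆ V := by
    rintro z ⟨h1 | h1, h2 | h2⟩
    · exact absurd (subset_closure h2) h1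
    · exact h2
    · exact h1
    · exact h1
  have hVb : Bornology.IsBounded V := hΓc.isBounded.thickening
  have hW₂b : Bornology.IsBounded W₂ := hΩb.union hVb
  have hFG : ∀ z ∈ V, F z + G z = S z := by
    intro z _
    rw [hGV z]
    ring
  obtain ⟨RΩ, hRΩ⟩ := hΩb.closure.subset_ball 0
  have hoR : ∀ z : ℂ, RΩ ≤ ‖z‖ → z ∉ closure Ω := by
    intro z hz h
    have := hRΩ h
    rw [mem_ball, dist_zero_right] at this
    linarith
  have hFb : ∃ C R : ℝ, ∀ z, R ≤ ‖z‖ → ‖F z‖ ≤ C := by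
    obtain ⟨C, R, hCR⟩ := cauchy_bdd hΩb
    refine ⟨C, max R RΩ, fun z hz => ?_⟩
    rw [hFout z fun h => hoR z ((le_max_right _ _).trans hz) (subset_closure h)]
    exact hCR z ((le_max_left _ _).trans hz)
  have hQF : ∀ z ∈ V, Q.evalEval z (F z) = 0 := by
    obtain ⟨p, hp1, hp2⟩ := hVUne
    have h1 : (fun z => Q.evalEval z (F z)) =ᶠ[𝓝 p] fun _ => 0 := by
      filter_upwards [isClosed_closure.isOpen_compl.mem_nhds hp2] with w hw
      rw [hFout w fun h => hw (subset_closure h)]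
      apply hQz
      rw [outer_eq hΩb hUc]
      exact hw
    intro z hz
    exact ident hVc hVo ((ev_diff hFd Q).mono fun w hw => Or.inr hw) (differentiableOn_const 0)
      hp1 h1 z hz
  -- the integral
  have hPwV : ∀ z ∈ V, Pw a b c z (S z) ≠ 0 := nz hN hVo hSV hSVr
  set u : ℂ → ℂ := fun z => (Pw a b c z (S z))⁻¹ with hu
  have huc : ContinuousOn u V := (pw_cont hSV.continuousOn).inv₀ hPwV
  have huΓ : ∀ z ∈ Γ, u z * dbar (fun z => (P z : ℂ)) z = 1 := by
    intro z hz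
    rw [hdb z, hu]
    simp only
    rw [hSΓ z hz]
    exact inv_mul_cancel₀ (hPwΓ z hz)
  obtain ⟨k, hk1, hk2, hk3, hk4, hk5⟩ := hINT P hP Γ Ω V hΓc ⟨x, hxΓ⟩ hPΓ hΩo hΩΓ hΩb hcl s hs hside
    hVo hΓV u huc huΓ
  have hkV : ∀ h : ℂ → ℂ, (∀ z ∈ V, h z = u z) → ∫ z, h z * k z = ∫ z, u z * k z := by
    intro h hh
    congr 1
    funext z
    by_cases hz : k z = 0
    · rw [hz, mul_zero, mul_zero]
    · rw [hh z (hk2 z hz)]
  have hdec : ∀ s : ℂ → ℂ, DifferentiableOn ℂ s W₁ → (∀ z ∈ W₁, Ps a b c d z (s z) = 0) →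
      DifferentiableOn ℂ (fun z => (Pw a b c z (s z))⁻¹) W₁ ∧
      ∃ C R : ℝ, ∀ z, R ≤ ‖z‖ → ‖(Pw a b c z (s z))⁻¹‖ ≤ C / ‖z‖ ^ 2 := by
    intro s hs1 hs2
    refine ⟨(pw_diff hs1).inv (nz hN hW₁o hs1 hs2), ?_⟩
    have hsub : {z : ℂ | RΩ < ‖z‖} ⊆ W₁ := fun z hz => Or.inl (hoR z (le_of_lt hz))
    obtain ⟨C, R', hC, hCR⟩ := hINF a b c d hN RΩ s (hs1.mono hsub) fun z hz => hs2 z (hsub hz)
    refine ⟨C⁻¹, max R' 1, fun z hz => ?_⟩
    have h1 := hCR z ((le_max_left _ _).trans hz)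
    have h2 : 0 < ‖z‖ := lt_of_lt_of_le one_pos ((le_max_right _ _).trans hz)
    rw [norm_inv, div_eq_mul_inv, ← mul_inv]
    exact inv_anti₀ (by positivity) h1
  rcases cases_thm hGERM hIRR hALG hENT hDIV hN hVo hVc ⟨x, hΓV hxΓ⟩ hW₁o hW₁c hW₂o hW₂c
    (fun z hz => Or.inr hz) (fun z hz => Or.inr hz) hcov hint hW₂b hFd hGd hSV hFG hFb hQ hQF hSVr
    with h | h | h
  · obtain ⟨σ, h1, h2, h3⟩ := h
    obtain ⟨h4, h5⟩ := hdec σ h1 h2
    apply hk5
    rw [← hkV (fun z => (Pw a b c z (σ z))⁻¹) fun z hz => by rw [hu]; simp only; rw [h3 z hz]]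
    exact hk4 _ h4 h5
  · obtain ⟨σ, h1, h2, h3⟩ := h
    apply hk5
    rw [← hkV (fun z => (Pw a b c z (σ z))⁻¹) fun z hz => by rw [hu]; simp only; rw [h3 z hz]]
    exact hk3 _ ((pw_diff h1).inv (nz hN hW₂o h1 h2))
  · obtain ⟨s₂, s₃, h1, h2, h3, h4, h5⟩ := h
    obtain ⟨h6, h7⟩ := hdec s₃ h3 h4
    have h8 : DifferentiableOn ℂ (fun z => (Pw a b c z (s₂ z))⁻¹) W₂ :=
      (pw_diff h1).inv (nz hN hW₂o h1 h2)
    have hz2 := nz hN hW₂o h1 h2
    have hz3 := nz hN hW₁o h3 h4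
    have hsum : ∀ z ∈ V, (Pw a b c z (s₂ z))⁻¹ + (Pw a b c z (s₃ z))⁻¹ = -u z := by
      intro z hz
      obtain ⟨e2, e1, -⟩ := h5 z hz
      have n1 := hPwV z hz
      have n2 := hz2 z (Or.inr hz)
      have n3 := hz3 z (Or.inr hz)
      have q1 : Pw a b c z (S z) = a * ((S z - s₂ z) * (S z - s₃ z)) := by
        rw [Pw]
        linear_combination (2 * S z) * e2 - e1
      have q2 : Pw a b c z (s₂ z) = a * ((s₂ z - S z) * (s₂ z - s₃ z)) := by
        rw [Pw]
        linear_combination (2 * s₂ z) * e2 - e1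
      have q3 : Pw a b c z (s₃ z) = a * ((s₃ z - S z) * (s₃ z - s₂ z)) := by
        rw [Pw]
        linear_combination (2 * s₃ z) * e2 - e1
      rw [hu]
      simp only
      rw [q1] at n1 ⊢
      rw [q2] at n2 ⊢
      rw [q3] at n3 ⊢
      have a0 : a ≠ 0 := hN.ha
      have d1 : S z - s₂ z ≠ 0 := by
        intro h; apply n1; rw [h]; ring
      have d2 : S z - s₃ z ≠ 0 := by
        intro h; apply n1; rw [h]; ring
      have d3 : s₂ z - s₃ z ≠ 0 := by
        intro h; apply n2; rw [h]; ring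
      have d4 : s₂ z - S z ≠ 0 := by
        intro h; apply d1; linear_combination -h
      have d5 : s₃ z - S z ≠ 0 := by
        intro h; apply d2; linear_combination -h
      have d6 : s₃ z - s₂ z ≠ 0 := by
        intro h; apply d3; linear_combination -h
      field_simp
      ring
    have hI2 := hk3 _ h8
    have hI3 := hk4 _ h6 h7
    have c2 : ContinuousOn (fun z => (Pw a b c z (s₂ z))⁻¹) V :=
      (h8.mono fun z hz => Or.inr hz).continuousOn
    have c3 : ContinuousOn (fun z => (Pw a b c z (s₃ z))⁻¹) V :=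
      (h6.mono fun z hz => Or.inr hz).continuousOn
    have hI : ∫ z, ((Pw a b c z (s₂ z))⁻¹ * k z + (Pw a b c z (s₃ z))⁻¹ * k z) = 0 := by
      rw [integral_add (hk1 _ c2) (hk1 _ c3), hI2, hI3, add_zero]
    apply hk5
    have hneg : ∫ z, u z * k z =
        -∫ z, ((Pw a b c z (s₂ z))⁻¹ * k z + (Pw a b c z (s₃ z))⁻¹ * k z) := by
      rw [← integral_neg]
      congr 1
      funext z
      by_cases hz : k z = 0
      · rw [hz]
        ring
      · have := hsum z (hk2 z hz)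
        linear_combination (k z) * this
    rw [hneg, hI, neg_zero]

end Pool.Agent.Helper72.CO
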